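import Mathlib

/-!
# The upper bound
-/

set_option autoImplicit false

namespace Pool.Agent.Work.MP_bbb683_h51

open Finset

section

variable {g : ℕ} {η : ℝ} {a : ℕ → ℕ}

/-- pairs of indices in the same window of length `l` -/
theorem pairs_card (hmono : StrictMono a)
    (hrep : ∀ i j, i < j → (a j : ℝ) - a i < (a j : ℝ) ^ η →
        {p : ℕ × ℕ | a p.2 = a p.1 + (a j - a i)}.encard ≤ g)
    (l : ℕ) (hl : 0 < l) (I : Finset ℕ) (hI : ∀ i ∈ I, (l : ℝ) ≤ (a i : ℝ) ^ η) :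
    ((I ×ˢ I).filter (fun p => p.1 < p.2 ∧ a p.1 / l = a p.2 / l)).card ≤ g * l := by
  classical
  set U := (I ×ˢ I).filter (fun p => p.1 < p.2 ∧ a p.1 / l = a p.2 / l) with hU
  have hmemU : ∀ p ∈ U, p.1 ∈ I ∧ p.2 ∈ I ∧ p.1 < p.2 ∧ a p.1 < a p.2 ∧ a p.2 - a p.1 < l := by
    intro p hp
    rw [hU, mem_filter, mem_product] at hp
    obtain ⟨⟨h1, h2⟩, h3, h4⟩ := hp
    refine ⟨h1, h2, h3, hmono h3, ?_⟩
    have e1 := Nat.div_add_mod (a p.1) l
    have e2 := Nat.div_add_mod (a p.2) l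
    have e3 := Nat.mod_lt (a p.2) hl
    rw [← h4] at e2
    omega
  have h1 := card_le_mul_card_image (f := fun p : ℕ × ℕ => a p.2 - a p.1) U g (by
    intro d hd
    obtain ⟨p₀, hp₀, rfl⟩ := mem_image.1 hd
    obtain ⟨h1, h2, h3, h4, h5⟩ := hmemU p₀ hp₀
    have h6 := hrep p₀.1 p₀.2 h3 (by
      have f1 := hI p₀.2 h2
      have f2 : ((a p₀.2 - a p₀.1 : ℕ) : ℝ) < l := by exact_mod_cast h5
      rw [Nat.cast_sub h4.le] at f2
      linarith)
    have h7 : ((U.filter (fun x => a x.2 - a x.1 = a p₀.2 - a p₀.1) : Finset (ℕ × ℕ)) :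
        Set (ℕ × ℕ)) ⊆ {p : ℕ × ℕ | a p.2 = a p.1 + (a p₀.2 - a p₀.1)} := by
      intro p hp
      obtain ⟨f1, f2⟩ := mem_filter.1 (mem_coe.1 hp)
      have := hmemU p f1
      simp only [Set.mem_setOf_eq]
      omega
    have h8 := (Set.encard_le_encard h7).trans h6
    rw [Set.encard_coe_eq_coe_finsetCard] at h8
    exact_mod_cast h8)
  refine h1.trans (Nat.mul_le_mul_left _ ?_)
  have h2 : U.image (fun p : ℕ × ℕ => a p.2 - a p.1) ⊆ range l := by
    intro d hd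
    obtain ⟨p, hp, rfl⟩ := mem_image.1 hd
    exact mem_range.2 (hmemU p hp).2.2.2.2
  simpa using card_le_card h2

theorem offdiag_card (l : ℕ) (I : Finset ℕ) :
    ((I ×ˢ I).filter (fun p => p.1 ≠ p.2 ∧ a p.1 / l = a p.2 / l)).card ≤
      2 * ((I ×ˢ I).filter (fun p => p.1 < p.2 ∧ a p.1 / l = a p.2 / l)).card := by
  classical
  set U := (I ×ˢ I).filter (fun p => p.1 < p.2 ∧ a p.1 / l = a p.2 / l) with hU
  have h1 : (I ×ˢ I).filter (fun p => p.1 ≠ p.2 ∧ a p.1 / l = a p.2 / l) ⊆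
      U ∪ U.image Prod.swap := by
    rintro ⟨i, j⟩ hp
    rw [mem_filter, mem_product] at hp
    obtain ⟨⟨h1, h2⟩, h3, h4⟩ := hp
    simp only at h1 h2 h3 h4
    rcases lt_or_gt_of_ne h3 with h | h
    · exact mem_union_left _ (by rw [hU, mem_filter, mem_product]; exact ⟨⟨h1, h2⟩, h, h4⟩)
    · refine mem_union_right _ (mem_image.2 ⟨(j, i), ?_, rfl⟩)
      rw [hU, mem_filter, mem_product]; exact ⟨⟨h2, h1⟩, h, h4.symm⟩
  refine (card_le_card h1).trans ((card_union_le _ _).trans ?_)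
  have : (U.image Prod.swap).card ≤ U.card := card_image_le
  omega

theorem fiber_sq (l : ℕ) (I : Finset ℕ) (S : Finset ℕ) (hS : ∀ i ∈ I, a i / l ∈ S) :
    ∑ w ∈ S, ((I.filter (fun i => a i / l = w)).card) ^ 2 ≤
      2 * ((I ×ˢ I).filter (fun p => p.1 ≠ p.2 ∧ a p.1 / l = a p.2 / l)).card + S.card := by
  classical
  have h1 := card_eq_sum_card_fiberwise (f := fun p : ℕ × ℕ => a p.1 / l)
    (s := (I ×ˢ I).filter (fun p => p.1 ≠ p.2 ∧ a p.1 / l = a p.2 / l)) (t := S) (by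
      intro p hp
      have hp' := mem_filter.1 (mem_coe.1 hp)
      exact hS _ (mem_product.1 hp'.1).1)
  rw [h1, mul_sum, card_eq_sum_ones, ← sum_add_distrib]
  refine sum_le_sum fun w _ => ?_
  have h2 : ((I ×ˢ I).filter (fun p => p.1 ≠ p.2 ∧ a p.1 / l = a p.2 / l)).filter
      (fun p => a p.1 / l = w) = (I.filter (fun i => a i / l = w)).offDiag := by
    ext ⟨i, j⟩
    simp only [mem_filter, mem_product, mem_offDiag]
    constructor
    · rintro ⟨⟨⟨h1, h2⟩, h3, h4⟩, h5⟩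
      exact ⟨⟨h1, h5⟩, ⟨h2, h4 ▸ h5⟩, h3⟩
    · rintro ⟨⟨h1, h5⟩, ⟨h2, h6⟩, h3⟩
      exact ⟨⟨⟨h1, h2⟩, h3, h5.trans h6.symm⟩, h5⟩
  rw [h2, offDiag_card]
  set n := (I.filter (fun i => a i / l = w)).card
  rcases Nat.lt_or_ge n 2 with h | h
  · interval_cases n <;> simp
  · obtain ⟨k, hk⟩ : ∃ k, n = k + 2 := ⟨n - 2, by omega⟩
    rw [hk]
    have : (k + 2) * (k + 2) - (k + 2) = (k + 2) * (k + 1) := by
      rw [show (k + 2) * (k + 2) = (k + 2) * (k + 1) + (k + 2) by ring, Nat.add_sub_cancel]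
    rw [this]
    nlinarith

theorem window_sum (hmono : StrictMono a)
    (hrep : ∀ i j, i < j → (a j : ℝ) - a i < (a j : ℝ) ^ η →
        {p : ℕ × ℕ | a p.2 = a p.1 + (a j - a i)}.encard ≤ g)
    (l : ℕ) (hl : 0 < l) (I : Finset ℕ) (hI : ∀ i ∈ I, (l : ℝ) ≤ (a i : ℝ) ^ η)
    (hI1 : ∀ i ∈ I, l ≤ a i) (hI2 : ∀ i ∈ I, a i < l ^ 2) :
    ∑ i ∈ I, 1 / √(a i : ℝ) ≤ √((4 * g + 1) * (1 + Real.log l)) := by
  classical
  have hl0 : (0 : ℝ) < l := by exact_mod_cast hl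
  set S := Icc 1 l with hS
  have hmaps : ∀ i ∈ I, a i / l ∈ S := by
    intro i hi
    rw [hS, mem_Icc]
    constructor
    · exact (Nat.one_le_div_iff hl).2 (hI1 i hi)
    · have : a i / l < l := by
        rw [Nat.div_lt_iff_lt_mul hl, ← pow_two]; exact hI2 i hi
      exact this.le
  set n : ℕ → ℕ := fun w => (I.filter (fun i => a i / l = w)).card with hn
  have h1 : ∑ i ∈ I, 1 / √(a i : ℝ) ≤ ∑ w ∈ S, (n w : ℝ) * (1 / √((w : ℝ) * l)) := by
    rw [← sum_fiberwise_of_maps_to (g := fun i => a i / l) (t := S) hmaps]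
    refine sum_le_sum fun w hw => ?_
    have hw1 : 1 ≤ w := (mem_Icc.1 hw).1
    have hw0 : (0 : ℝ) < w := by exact_mod_cast hw1
    calc ∑ i ∈ I.filter (fun i => a i / l = w), 1 / √(a i : ℝ)
        ≤ ∑ i ∈ I.filter (fun i => a i / l = w), 1 / √((w : ℝ) * l) := by
          refine sum_le_sum fun i hi => ?_
          have hi2 := (mem_filter.1 hi).2
          refine one_div_le_one_div_of_le (Real.sqrt_pos.2 (by positivity))
            (Real.sqrt_le_sqrt ?_)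
          have : w * l ≤ a i := by rw [← hi2]; exact Nat.div_mul_le_self _ _
          exact_mod_cast this
      _ = (n w : ℝ) * (1 / √((w : ℝ) * l)) := by rw [sum_const, nsmul_eq_mul]
  have h2 : ∑ w ∈ S, (n w : ℝ) ^ 2 ≤ (4 * g + 1) * l := by
    have e1 : ∑ w ∈ S, (n w) ^ 2 ≤ _ := fiber_sq (a := a) l I S hmaps
    have e2 := offdiag_card (a := a) l I
    have e3 := pairs_card hmono hrep l hl I hI
    have e4 : S.card = l := by rw [hS, Nat.card_Icc]; omega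
    have e5 : ∑ w ∈ S, (n w) ^ 2 ≤ (4 * g + 1) * l := by
      have : (4 * g + 1) * l = 4 * (g * l) + l := by ring
      rw [this]
      omega
    exact_mod_cast e5
  have h3 : ∑ w ∈ S, (1 / √((w : ℝ) * l)) ^ 2 ≤ (1 + Real.log l) / l := by
    have e1 : ∀ w ∈ S, (1 / √((w : ℝ) * l)) ^ 2 = (w : ℝ)⁻¹ * (1 / l) := by
      intro w _
      rw [div_pow, one_pow, Real.sq_sqrt (by positivity : (0 : ℝ) ≤ (w : ℝ) * l)]
      rw [one_div, mul_inv, one_div]
    have e2 := harmonic_le_one_add_log l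
    rw [harmonic_eq_sum_Icc] at e2
    push_cast at e2
    calc ∑ w ∈ S, (1 / √((w : ℝ) * l)) ^ 2 = (∑ w ∈ S, (w : ℝ)⁻¹) * (1 / (l : ℝ)) := by
          rw [sum_congr rfl e1, ← sum_mul]
      _ ≤ (1 + Real.log l) * (1 / (l : ℝ)) :=
          mul_le_mul_of_nonneg_right e2 (by positivity)
      _ = (1 + Real.log l) / l := by rw [mul_one_div]
  refine h1.trans ((Real.sum_mul_le_sqrt_mul_sqrt S _ _).trans ?_)
  rw [← Real.sqrt_mul (sum_nonneg fun w _ => by positivity)]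
  refine Real.sqrt_le_sqrt ?_
  calc (∑ w ∈ S, (n w : ℝ) ^ 2) * ∑ w ∈ S, (1 / √((w : ℝ) * l)) ^ 2
      ≤ ((4 * g + 1) * l) * ((1 + Real.log l) / l) :=
        mul_le_mul h2 h3 (sum_nonneg fun w _ => by positivity) (by positivity)
    _ = (4 * g + 1) * (1 + Real.log l) := by field_simp

end

end Pool.Agent.Work.MP_bbb683_h51
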