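import Mathlib
import Pool.Agent.Work.MP_bbb683_h51.Upper

/-!
# The upper bound: recursion over the scales
-/

set_option autoImplicit false

namespace Pool.Agent.Work.MP_bbb683_h51

open Finset

/-- sum over the elements less than `N` -/
noncomputable def FF (a : ℕ → ℕ) (N : ℕ) : ℝ :=
  ∑ i ∈ (range N).filter (fun i => a i < N), 1 / √(a i : ℝ)

section

variable {g : ℕ} {η : ℝ} {a : ℕ → ℕ}

theorem a_pos (hmono : StrictMono a) (h0 : 0 < a 0) (i : ℕ) : 0 < a i :=
  lt_of_lt_of_le h0 (hmono.monotone (Nat.zero_le i))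

theorem rec_step (hmono : StrictMono a) (h0 : 0 < a 0) (hη : 1 / 2 < η) (hη1 : η ≤ 1)
    (hrep : ∀ i j, i < j → (a j : ℝ) - a i < (a j : ℝ) ^ η →
        {p : ℕ × ℕ | a p.2 = a p.1 + (a j - a i)}.encard ≤ g) (N : ℕ) :
    FF a N ≤ FF a ⌈((Nat.sqrt N + 1 : ℕ) : ℝ) ^ (1 / η)⌉₊ +
      √((4 * g + 1) * (1 + Real.log ((Nat.sqrt N + 1 : ℕ) : ℝ))) := by
  classical
  have hη0 : 0 < η := by linarith
  set l := Nat.sqrt N + 1 with hl
  have hl0 : 0 < l := by omega
  set M := ⌈(l : ℝ) ^ (1 / η)⌉₊ with hM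
  set T := (range N).filter (fun i => a i < N) with hT
  set I := T.filter (fun i => (l : ℝ) ≤ (a i : ℝ) ^ η) with hI
  have hmemT : ∀ i ∈ T, a i < N := fun i hi => (mem_filter.1 hi).2
  have h1 : ∑ i ∈ I, 1 / √(a i : ℝ) ≤ √((4 * g + 1) * (1 + Real.log (l : ℝ))) := by
    refine window_sum hmono hrep l hl0 I (fun i hi => (mem_filter.1 hi).2) ?_ ?_
    · intro i hi
      have e1 := (mem_filter.1 hi).2
      have e2 : (a i : ℝ) ^ η ≤ a i := by
        have e3 : (1 : ℝ) ≤ a i := by exact_mod_cast a_pos hmono h0 i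
        calc (a i : ℝ) ^ η ≤ (a i : ℝ) ^ (1 : ℝ) := Real.rpow_le_rpow_of_exponent_le e3 hη1
          _ = a i := Real.rpow_one _
      exact_mod_cast e1.trans e2
    · intro i hi
      have e1 := hmemT i (mem_filter.1 hi).1
      have e2 := Nat.lt_succ_sqrt N
      rw [pow_two]
      exact lt_trans e1 e2
  have h2 : ∑ i ∈ T.filter (fun i => ¬ (l : ℝ) ≤ (a i : ℝ) ^ η), 1 / √(a i : ℝ) ≤ FF a M := by
    unfold FF
    refine sum_le_sum_of_subset_of_nonneg ?_ (fun i _ _ => by positivity)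
    intro i hi
    obtain ⟨e1, e2⟩ := mem_filter.1 hi
    push Not at e2
    have e3 : (a i : ℝ) < (l : ℝ) ^ (1 / η) := by
      have f1 : ((a i : ℝ) ^ η) ^ (1 / η) < (l : ℝ) ^ (1 / η) :=
        Real.rpow_lt_rpow (by positivity) e2 (by positivity)
      rwa [← Real.rpow_mul (by positivity), mul_one_div, div_self hη0.ne', Real.rpow_one] at f1
    have e4 : a i < M := by
      have : (a i : ℝ) < M := e3.trans_le (Nat.le_ceil _)
      exact_mod_cast this
    exact mem_filter.2 ⟨mem_range.2 (lt_of_le_of_lt (hmono.le_apply) e4), e4⟩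
  have h3 := sum_filter_add_sum_filter_not T (fun i => (l : ℝ) ≤ (a i : ℝ) ^ η)
    (fun i => 1 / √(a i : ℝ))
  have h4 : FF a N = ∑ i ∈ T, 1 / √(a i : ℝ) := rfl
  rw [h4, ← h3]
  linarith

theorem numeric (hη : 1 / 2 < η) (hη1 : η ≤ 1) :
    ∃ β : ℝ, 0 < β ∧ β < 1 ∧ ∃ N₀ : ℕ, 2 ≤ N₀ ∧ ∀ N ≥ N₀,
      1 + Real.log (⌈((Nat.sqrt N + 1 : ℕ) : ℝ) ^ (1 / η)⌉₊ : ℝ) ≤ β * (1 + Real.log N) := by
  have hη0 : 0 < η := by linarith
  set θ : ℝ := 1 / (2 * η) with hθ
  have hθ0 : 0 < θ := by positivity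
  have hθ1 : θ < 1 := by rw [hθ, div_lt_one (by positivity)]; linarith
  refine ⟨(1 + θ) / 2, by positivity, by linarith, ?_⟩
  set β : ℝ := (1 + θ) / 2 with hβ
  have hβθ : 0 < β - θ := by rw [hβ]; linarith
  obtain ⟨N₀, hN₀⟩ := exists_nat_gt (Real.exp (4 / (β - θ)))
  refine ⟨N₀ + 2, by omega, ?_⟩
  intro N hN
  have hN1 : 1 ≤ N := by omega
  have hN0 : (0 : ℝ) < N := by exact_mod_cast hN1
  have hlogN : 4 / (β - θ) ≤ Real.log N := by
    rw [← Real.log_exp (4 / (β - θ))]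
    refine Real.log_le_log (Real.exp_pos _) ?_
    have : (N₀ : ℝ) ≤ N := by exact_mod_cast (by omega : N₀ ≤ N)
    linarith
  set l := Nat.sqrt N + 1 with hl
  have hl1 : (1 : ℝ) ≤ l := by
    rw [hl]; push_cast
    have : (0 : ℝ) ≤ (Nat.sqrt N : ℝ) := by positivity
    linarith
  have hl2 : (l : ℝ) ≤ 2 * √(N : ℝ) := by
    have e1 : 1 ≤ Nat.sqrt N := Nat.sqrt_pos.2 hN1
    have e2 : (Nat.sqrt N : ℝ) ≤ √(N : ℝ) := Real.nat_sqrt_le_real_sqrt
    have e3 : (1 : ℝ) ≤ Nat.sqrt N := by exact_mod_cast e1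
    rw [hl]; push_cast
    linarith
  have hlog2 : Real.log 2 ≤ 1 := by
    have := Real.log_two_lt_d9
    linarith
  have hlog20 : 0 ≤ Real.log 2 := Real.log_nonneg (by norm_num)
  have hlogl : Real.log l ≤ Real.log 2 + Real.log N / 2 := by
    calc Real.log l ≤ Real.log (2 * √(N : ℝ)) := Real.log_le_log (by linarith) hl2
      _ = Real.log 2 + Real.log N / 2 := by
        rw [Real.log_mul (by norm_num) (by positivity), Real.log_sqrt (by positivity)]
  have hM : (⌈(l : ℝ) ^ (1 / η)⌉₊ : ℝ) ≤ 2 * (l : ℝ) ^ (1 / η) := by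
    have e1 := (Nat.ceil_lt_add_one (by positivity : 0 ≤ (l : ℝ) ^ (1 / η))).le
    have e2 : 1 ≤ (l : ℝ) ^ (1 / η) := Real.one_le_rpow hl1 (by positivity)
    linarith
  have hMpos : (0 : ℝ) < (⌈(l : ℝ) ^ (1 / η)⌉₊ : ℝ) := by
    have : 0 < ⌈(l : ℝ) ^ (1 / η)⌉₊ := Nat.ceil_pos.2 (by positivity)
    exact_mod_cast this
  have hlogM : Real.log (⌈(l : ℝ) ^ (1 / η)⌉₊ : ℝ) ≤ 3 + θ * Real.log N := by
    have e0 : 1 / η ≤ 2 := by
      rw [div_le_iff₀ hη0]; linarith
    have e4 : 1 / η * Real.log 2 ≤ 2 * 1 := mul_le_mul e0 hlog2 hlog20 (by norm_num)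
    calc Real.log (⌈(l : ℝ) ^ (1 / η)⌉₊ : ℝ) ≤ Real.log (2 * (l : ℝ) ^ (1 / η)) :=
          Real.log_le_log hMpos hM
      _ = Real.log 2 + 1 / η * Real.log l := by
          rw [Real.log_mul (by norm_num) (by positivity), Real.log_rpow (by linarith)]
      _ ≤ Real.log 2 + 1 / η * (Real.log 2 + Real.log N / 2) := by
          have : 0 ≤ 1 / η := by positivity
          nlinarith [mul_le_mul_of_nonneg_left hlogl this]
      _ = Real.log 2 + 1 / η * Real.log 2 + θ * Real.log N := by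
          rw [hθ]; field_simp; ring
      _ ≤ 3 + θ * Real.log N := by linarith
  rw [div_le_iff₀ hβθ] at hlogN
  have hβ0 : 0 < β := by rw [hβ]; positivity
  nlinarith

theorem FF_bound (g : ℕ) (hη : 1 / 2 < η) (hη1 : η ≤ 1) :
    ∃ C : ℝ, 0 ≤ C ∧ ∀ a : ℕ → ℕ, StrictMono a → 0 < a 0 →
      (∀ i j, i < j → (a j : ℝ) - a i < (a j : ℝ) ^ η →
        {p : ℕ × ℕ | a p.2 = a p.1 + (a j - a i)}.encard ≤ g) →
      ∀ N : ℕ, 1 ≤ N → FF a N ≤ C * √(1 + Real.log N) := by
  obtain ⟨β, hβ0, hβ1, N₀, hN₀2, hN₀⟩ := numeric hη hη1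
  have hsβ : √β < 1 := by
    rw [Real.sqrt_lt' one_pos]; simpa using hβ1
  set C : ℝ := max N₀ (√(4 * g + 1) / (1 - √β)) with hC
  have hC0 : 0 ≤ C := le_max_of_le_left (by positivity)
  refine ⟨C, hC0, ?_⟩
  intro a hmono h0 hrep N
  induction N using Nat.strong_induction_on with
  | _ N ih =>
    intro hN1
    have hN1' : (1 : ℝ) ≤ N := by exact_mod_cast hN1
    have hlogN : 0 ≤ Real.log N := Real.log_nonneg hN1'
    rcases Nat.lt_or_ge N N₀ with h | h
    · have e1 : FF a N ≤ N := by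
        unfold FF
        calc ∑ i ∈ (range N).filter (fun i => a i < N), 1 / √(a i : ℝ)
            ≤ ∑ i ∈ (range N).filter (fun i => a i < N), (1 : ℝ) := by
              refine sum_le_sum fun i _ => ?_
              have e2 : (1 : ℝ) ≤ a i := by exact_mod_cast a_pos hmono h0 i
              rw [div_le_one (Real.sqrt_pos.2 (by linarith))]
              exact Real.one_le_sqrt.2 e2
          _ ≤ N := by
              rw [sum_const, nsmul_eq_mul, mul_one]
              have := card_filter_le (range N) (fun i => a i < N)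
              rw [card_range] at this
              exact_mod_cast this
      have e2 : (N : ℝ) ≤ C := le_trans (by exact_mod_cast h.le) (le_max_left _ _)
      have e3 : 1 ≤ √(1 + Real.log N) := Real.one_le_sqrt.2 (by linarith)
      nlinarith
    · have h1 := rec_step hmono h0 hη hη1 hrep N
      have h2 := hN₀ N h
      set M := ⌈((Nat.sqrt N + 1 : ℕ) : ℝ) ^ (1 / η)⌉₊ with hM
      have hM1 : 1 ≤ M := Nat.ceil_pos.2 (by positivity)
      have hMN : M < N := by
        have e1 : Real.log M < Real.log N := by nlinarith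
        have e2 := (Real.log_lt_log_iff (by exact_mod_cast hM1) (by linarith)).1 e1
        exact_mod_cast e2
      have h3 := ih M hMN hM1
      have h4 : √(1 + Real.log M) ≤ √β * √(1 + Real.log N) := by
        rw [← Real.sqrt_mul hβ0.le]
        exact Real.sqrt_le_sqrt h2
      have h5 : √((4 * g + 1) * (1 + Real.log ((Nat.sqrt N + 1 : ℕ) : ℝ))) ≤
          √(4 * g + 1) * √(1 + Real.log N) := by
        rw [← Real.sqrt_mul (by positivity)]
        refine Real.sqrt_le_sqrt (mul_le_mul_of_nonneg_left ?_ (by positivity))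
        have e1 : Nat.sqrt N + 1 ≤ N := Nat.sqrt_lt_self (by omega)
        have e2 : Real.log ((Nat.sqrt N + 1 : ℕ) : ℝ) ≤ Real.log N :=
          Real.log_le_log (by positivity) (by exact_mod_cast e1)
        linarith
      have h6 : √(4 * g + 1) ≤ C * (1 - √β) := by
        rw [← div_le_iff₀ (by linarith)]
        exact le_max_right _ _
      have h7 : 0 ≤ √(1 + Real.log N) := Real.sqrt_nonneg _
      calc FF a N ≤ C * √(1 + Real.log M) + √(4 * g + 1) * √(1 + Real.log N) := by linarith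
        _ ≤ C * (√β * √(1 + Real.log N)) + C * (1 - √β) * √(1 + Real.log N) :=
          add_le_add (mul_le_mul_of_nonneg_left h4 hC0) (mul_le_mul_of_nonneg_right h6 h7)
        _ = C * √(1 + Real.log N) := by ring

theorem sum_bound (g : ℕ) (η : ℝ) (hη : 1 / 2 < η) :
    ∃ C : ℝ, ∀ a : ℕ → ℕ, StrictMono a → 0 < a 0 →
      (∀ i j, i < j → (a j : ℝ) - a i < (a j : ℝ) ^ η →
        {p : ℕ × ℕ | a p.2 = a p.1 + (a j - a i)}.encard ≤ g) →
      ∀ x : ℕ, 2 ≤ x → ∑ i ∈ range x, 1 / √(a i : ℝ) ≤ C * √(Real.log x) := by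
  obtain ⟨C, hC0, hC⟩ := FF_bound (η := min η 1) g (lt_min hη (by norm_num)) (min_le_right _ _)
  refine ⟨2 * C + 2, ?_⟩
  intro a hmono h0 hrep x hx
  have hrep' : ∀ i j, i < j → (a j : ℝ) - a i < (a j : ℝ) ^ (min η 1) →
        {p : ℕ × ℕ | a p.2 = a p.1 + (a j - a i)}.encard ≤ g := by
    intro i j hij hlt
    refine hrep i j hij (hlt.trans_le ?_)
    exact Real.rpow_le_rpow_of_exponent_le (by exact_mod_cast a_pos hmono h0 j) (min_le_left _ _)
  have h1 := hC a hmono h0 hrep' (x ^ 2) (Nat.one_le_pow _ _ (by omega))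
  have hx0 : (0 : ℝ) < x := by exact_mod_cast (by omega : 0 < x)
  have h2 := sum_filter_add_sum_filter_not (range x) (fun i => a i < x ^ 2)
    (fun i => 1 / √(a i : ℝ))
  have h3 : ∑ i ∈ (range x).filter (fun i => a i < x ^ 2), 1 / √(a i : ℝ) ≤ FF a (x ^ 2) := by
    unfold FF
    refine sum_le_sum_of_subset_of_nonneg ?_ (fun i _ _ => by positivity)
    intro i hi
    obtain ⟨e1, e2⟩ := mem_filter.1 hi
    refine mem_filter.2 ⟨mem_range.2 ?_, e2⟩
    exact lt_of_le_of_lt hmono.le_apply e2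
  have h4 : ∑ i ∈ (range x).filter (fun i => ¬ a i < x ^ 2), 1 / √(a i : ℝ) ≤ 1 := by
    calc ∑ i ∈ (range x).filter (fun i => ¬ a i < x ^ 2), 1 / √(a i : ℝ)
        ≤ ∑ i ∈ (range x).filter (fun i => ¬ a i < x ^ 2), 1 / (x : ℝ) := by
          refine sum_le_sum fun i hi => ?_
          have e1 := (mem_filter.1 hi).2
          push Not at e1
          refine one_div_le_one_div_of_le hx0 ?_
          rw [← Real.sqrt_sq hx0.le]
          exact Real.sqrt_le_sqrt (by exact_mod_cast e1)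
      _ ≤ x * (1 / (x : ℝ)) := by
          rw [sum_const, nsmul_eq_mul]
          refine mul_le_mul_of_nonneg_right ?_ (by positivity)
          have := card_filter_le (range x) (fun i => ¬ a i < x ^ 2)
          rw [card_range] at this
          exact_mod_cast this
      _ = 1 := by rw [mul_one_div, div_self hx0.ne']
  have hlog : 1 / 2 ≤ Real.log x := by
    have e1 := Real.log_two_gt_d9
    have e2 : Real.log 2 ≤ Real.log x := Real.log_le_log (by norm_num) (by exact_mod_cast hx)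
    linarith
  have h5 : √(1 + Real.log ((x ^ 2 : ℕ) : ℝ)) ≤ 2 * √(Real.log x) := by
    push_cast
    rw [Real.log_pow]
    calc √(1 + ((2 : ℕ) : ℝ) * Real.log x) ≤ √(2 ^ 2 * Real.log x) :=
          Real.sqrt_le_sqrt (by push_cast; linarith)
      _ = 2 * √(Real.log x) := by
          rw [Real.sqrt_mul (by norm_num), Real.sqrt_sq (by norm_num)]
  have h6 : 1 ≤ 2 * √(Real.log x) := by
    calc (1 : ℝ) = √1 := Real.sqrt_one.symm
      _ ≤ √(2 ^ 2 * Real.log x) := Real.sqrt_le_sqrt (by linarith)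
      _ = 2 * √(Real.log x) := by
          rw [Real.sqrt_mul (by norm_num), Real.sqrt_sq (by norm_num)]
  have h7 := mul_le_mul_of_nonneg_left h5 hC0
  rw [← h2]
  calc _ ≤ C * (2 * √(Real.log x)) + 2 * √(Real.log x) := by linarith
    _ = (2 * C + 2) * √(Real.log x) := by ring

end

end Pool.Agent.Work.MP_bbb683_h51
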