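import Mathlib

/-!
# Sequences whose small differences have few representations: arithmetic of the blocks
-/

set_option autoImplicit false

namespace Pool.Agent.Work.MP_bbb683_h51

open Finset

/-- Parabola: the pair of differences `(x - x', x ^ 2 mod p - x' ^ 2 mod p)` determines the pair. -/
theorem parabola {p : ℕ} (hp : p.Prime) (hp2 : p ≠ 2) {x x' y y' : ℕ} (hx : x < p) (hx' : x' < p)
    (hy : y < p) (hy' : y' < p) (hne : x ≠ x')
    (h1 : (x : ℤ) - x' = y - y')
    (h2 : ((x ^ 2 % p : ℕ) : ℤ) - (x' ^ 2 % p : ℕ) = (y ^ 2 % p : ℕ) - (y' ^ 2 % p : ℕ)) :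
    x = y ∧ x' = y' := by
  haveI : Fact p.Prime := ⟨hp⟩
  have h3 : (x : ZMod p) - x' = y - y' := by
    have := congrArg (fun z : ℤ => (z : ZMod p)) h1
    push_cast at this
    exact this
  have h4 : (x : ZMod p) ^ 2 - (x' : ZMod p) ^ 2 = (y : ZMod p) ^ 2 - (y' : ZMod p) ^ 2 := by
    have := congrArg (fun z : ℤ => (z : ZMod p)) h2
    simp only [Int.cast_sub, Int.cast_natCast, ZMod.natCast_mod] at this
    push_cast at this
    exact this
  have hcast : ∀ {a b : ℕ}, a < p → b < p → (a : ZMod p) = b → a = b := by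
    intro a b ha hb hab
    have := (ZMod.natCast_eq_natCast_iff a b p).1 hab
    exact Nat.ModEq.eq_of_lt_of_lt this ha hb
  have h5 : (x : ZMod p) - x' ≠ 0 := by
    intro h
    exact hne (hcast hx hx' (sub_eq_zero.1 h))
  have h6 : ((x : ZMod p) - x') * (((x : ZMod p) + x') - (y + y')) = 0 := by
    have e1 : ((x : ZMod p) - x') * (x + x') = (x : ZMod p) ^ 2 - (x' : ZMod p) ^ 2 := by ring
    have e2 : ((x : ZMod p) - x') * (y + y') = (y : ZMod p) ^ 2 - (y' : ZMod p) ^ 2 := by
      rw [h3]; ring
    rw [mul_sub, e1, e2, h4, sub_self]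
  have h7 : (x : ZMod p) + x' = y + y' := by
    rcases mul_eq_zero.1 h6 with h | h
    · exact absurd h h5
    · exact sub_eq_zero.1 h
  have h8 : (2 : ZMod p) ≠ 0 := by
    intro h
    have : ((2 : ℕ) : ZMod p) = 0 := by exact_mod_cast h
    rw [ZMod.natCast_eq_zero_iff] at this
    exact hp2 ((Nat.prime_dvd_prime_iff_eq hp Nat.prime_two).1 this)
  have h9 : (x : ZMod p) = y := by
    apply mul_left_cancel₀ h8
    linear_combination h3 + h7
  have h10 : (x' : ZMod p) = y' := by
    linear_combination h7 - h9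
  exact ⟨hcast hx hy h9, hcast hx' hy' h10⟩

/-- A vanishing number with small digits has vanishing digits (the top digit is arbitrary). -/
theorem digits_zero {b : ℤ} (hb : 0 < b) : ∀ (n : ℕ) (e : ℕ → ℤ), (∀ j < n, |e j| < b) →
    ∑ j ∈ range (n + 1), e j * b ^ j = 0 → ∀ j ≤ n, e j = 0 := by
  intro n
  induction n with
  | zero =>
    intro e _ h j hj
    obtain rfl : j = 0 := by omega
    simpa using h
  | succ n ih =>
    intro e he h
    have h1 : ∑ j ∈ range (n + 1 + 1), e j * b ^ j
        = e 0 + b * ∑ j ∈ range (n + 1), e (j + 1) * b ^ j := by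
      rw [sum_range_succ', mul_sum]
      simp only [pow_zero, mul_one]
      rw [add_comm]
      congr 1
      refine sum_congr rfl fun j _ => ?_
      rw [pow_succ]; ring
    rw [h1] at h
    have h0 : e 0 = 0 := by
      have h2 : b ∣ e 0 := ⟨-∑ j ∈ range (n + 1), e (j + 1) * b ^ j, by linarith⟩
      exact Int.eq_zero_of_abs_lt_dvd h2 (he 0 (by omega))
    rw [h0, zero_add] at h
    have h3 : ∑ j ∈ range (n + 1), e (j + 1) * b ^ j = 0 := by
      rcases mul_eq_zero.1 h with h | h
      · omega
      · exact h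
    have h4 := ih (fun j => e (j + 1)) (fun j hj => he (j + 1) (by omega)) h3
    intro j hj
    rcases j with _ | j
    · exact h0
    · exact h4 j (by omega)

/-- base `q` expansion of `x < q ^ g` -/
theorem sum_digits (q : ℕ) : ∀ (g x : ℕ), x < q ^ g →
    ∑ j ∈ range g, (x / q ^ j % q) * q ^ j = x := by
  intro g
  induction g with
  | zero => intro x hx; simp at hx; simp [hx]
  | succ g ih =>
    intro x hx
    rcases Nat.eq_zero_or_pos q with rfl | hq
    · simp at hx
    rw [sum_range_succ']
    have h1 : x / q < q ^ g := by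
      rw [Nat.div_lt_iff_lt_mul hq]
      rwa [pow_succ] at hx
    have h2 := ih (x / q) h1
    have h3 : ∑ j ∈ range g, (x / q ^ (j + 1) % q) * q ^ (j + 1) = q * (x / q) := by
      rw [← h2, mul_sum]
      refine sum_congr rfl fun j _ => ?_
      rw [Nat.div_div_eq_div_mul, ← pow_succ']
      rw [pow_succ]; ring
    rw [h3]
    simp only [pow_zero, Nat.div_one, mul_one]
    exact Nat.div_add_mod x q

end Pool.Agent.Work.MP_bbb683_h51
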