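import Mathlib
import Pool.Agent.Work.MP_bbb683_h51.Basic

/-!
# The blocks: elements, windows, digits
-/

set_option autoImplicit false

namespace Pool.Agent.Work.MP_bbb683_h51

open Finset

/-- `v`-digit -/
def vv (q g t x : ℕ) : ℕ := (∑ j ∈ range g, (x / q ^ j % q) * t ^ (j + 1)) % q

/-- the digits of a code -/
def dg (q g t x z : ℕ) (j : ℕ) : ℕ :=
  if j < g then x / q ^ j % q else if j = g then vv q g t x else z

/-- the code of `(t, x, z)` -/
def cd (q g t x z : ℕ) : ℕ := ∑ j ∈ range (g + 1 + 1), dg q g t x z j * (2 * q) ^ j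

theorem dg_lt {q g t x z : ℕ} (hq : 0 < q) {j : ℕ} (hj : j < g + 1) : dg q g t x z j < q := by
  unfold dg
  split_ifs with h1 h2
  · exact Nat.mod_lt _ hq
  · exact Nat.mod_lt _ hq
  · omega

theorem dg_top {q g t x z : ℕ} : dg q g t x z (g + 1) = z := by
  unfold dg
  rw [if_neg (by omega), if_neg (by omega)]

theorem dg_mid {q g t x z : ℕ} : dg q g t x z g = vv q g t x := by
  unfold dg
  rw [if_neg (by omega), if_pos rfl]

theorem dg_low {q g t x z j : ℕ} (hj : j < g) : dg q g t x z j = x / q ^ j % q := by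
  unfold dg
  rw [if_pos hj]

theorem sum_lt_pow {b : ℕ} (hb : 0 < b) : ∀ (n : ℕ) (e : ℕ → ℕ), (∀ j < n, e j < b) →
    ∑ j ∈ range n, e j * b ^ j < b ^ n := by
  intro n
  induction n with
  | zero => intro e _; simp
  | succ n ih =>
    intro e he
    rw [sum_range_succ]
    have h1 := ih e (fun j hj => he j (by omega))
    have h2 : e n * b ^ n ≤ (b - 1) * b ^ n :=
      Nat.mul_le_mul_right _ (by have := he n (by omega); omega)
    have h3 : (b - 1) * b ^ n + b ^ n = b ^ (n + 1) := by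
      obtain ⟨c, rfl⟩ : ∃ c, b = c + 1 := ⟨b - 1, by omega⟩
      rw [Nat.add_sub_cancel, pow_succ]; ring
    omega

theorem cd_lt {q g t x z : ℕ} (hq : 0 < q) (hz : z < q ^ g) :
    cd q g t x z < q ^ g * (2 * q) ^ (g + 1) := by
  unfold cd
  rw [sum_range_succ, dg_top]
  have h1 := sum_lt_pow (b := 2 * q) (by omega) (g + 1) (dg q g t x z)
    (fun j hj => by have := dg_lt (t := t) (x := x) (z := z) hq hj; omega)
  have h2 : (z + 1) * (2 * q) ^ (g + 1) ≤ q ^ g * (2 * q) ^ (g + 1) :=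
    Nat.mul_le_mul_right _ (by omega)
  have h3 : (z + 1) * (2 * q) ^ (g + 1) = z * (2 * q) ^ (g + 1) + (2 * q) ^ (g + 1) := by ring
  omega

/-- Equal differences of codes have equal differences of digits. -/
theorem cd_diff {q g : ℕ} (hq : 0 < q) {t x z x' z' s y w y' w' : ℕ}
    (h : (cd q g t x z : ℤ) - cd q g t x' z' = cd q g s y w - cd q g s y' w') :
    ∀ j ≤ g + 1, (dg q g t x z j : ℤ) - dg q g t x' z' j = dg q g s y w j - dg q g s y' w' j := by
  have h1 := digits_zero (b := 2 * (q : ℤ)) (by omega) (g + 1)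
    (fun j => ((dg q g t x z j : ℤ) - dg q g t x' z' j) - (dg q g s y w j - dg q g s y' w' j))
    (by
      intro j hj
      have a1 := dg_lt (t := t) (x := x) (z := z) hq hj
      have a2 := dg_lt (t := t) (x := x') (z := z') hq hj
      have a3 := dg_lt (t := s) (x := y) (z := w) hq hj
      have a4 := dg_lt (t := s) (x := y') (z := w') hq hj
      rw [abs_lt]
      constructor <;> omega)
    (by
      unfold cd at h
      push_cast at h
      simp only [sub_mul, sum_sub_distrib]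
      linarith)
  intro j hj
  have := h1 j hj
  linarith

/-- the window index -/
def win (q g W κ c x y : ℕ) : ℕ := 4 ^ κ * (W + c) + x / q ^ g * 2 ^ κ + y / q ^ g

theorem win_bounds {q g W κ c x y : ℕ} (hx : x / q ^ g < 2 ^ κ) (hy : y / q ^ g < 2 ^ κ) :
    4 ^ κ * (W + c) ≤ win q g W κ c x y ∧ win q g W κ c x y < 4 ^ κ * (W + c + 1) := by
  unfold win
  constructor
  · rw [add_assoc]; exact Nat.le_add_right _ _
  · have h1 : (x / q ^ g + 1) * 2 ^ κ ≤ 2 ^ κ * 2 ^ κ := Nat.mul_le_mul_right _ (by omega)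
    have h2 : (2 : ℕ) ^ κ * 2 ^ κ = 4 ^ κ := by
      rw [← mul_pow]; norm_num
    have h3 : (x / q ^ g + 1) * 2 ^ κ = x / q ^ g * 2 ^ κ + 2 ^ κ := by ring
    have h4 : 4 ^ κ * (W + c + 1) = 4 ^ κ * (W + c) + 4 ^ κ := by ring
    omega

theorem win_inj {q g W κ c x y κ' c' x' y' : ℕ} (hc : c < W) (hc' : c' < W)
    (hx : x / q ^ g < 2 ^ κ) (hy : y / q ^ g < 2 ^ κ)
    (hx' : x' / q ^ g < 2 ^ κ') (hy' : y' / q ^ g < 2 ^ κ')
    (h : win q g W κ c x y = win q g W κ' c' x' y') :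
    κ = κ' ∧ c = c' ∧ x / q ^ g = x' / q ^ g ∧ y / q ^ g = y' / q ^ g := by
  have b := win_bounds (q := q) (g := g) (W := W) (κ := κ) (c := c) hx hy
  have b' := win_bounds (q := q) (g := g) (W := W) (κ := κ') (c := c') hx' hy'
  have key : ∀ {κ κ' c c' w : ℕ}, c < W → c' < W → κ < κ' → w < 4 ^ κ * (W + c + 1) →
      4 ^ κ' * (W + c') ≤ w → False := by
    intro κ κ' c c' w hc hc' hk h1 h2
    have e1 : 4 ^ κ * (W + c + 1) ≤ 4 ^ κ * (2 * W) := Nat.mul_le_mul_left _ (by omega)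
    have e2 : 4 ^ (κ + 1) ≤ 4 ^ κ' := Nat.pow_le_pow_right (by norm_num) hk
    have e3 : 4 ^ (κ + 1) * W ≤ 4 ^ κ' * (W + c') := Nat.mul_le_mul e2 (by omega)
    have e4 : 4 ^ (κ + 1) * W = 2 * (4 ^ κ * (2 * W)) := by rw [pow_succ]; ring
    omega
  have hk : κ = κ' := by
    rcases lt_trichotomy κ κ' with hk | hk | hk
    · exact (key hc hc' hk b.2 (h ▸ b'.1)).elim
    · exact hk
    · exact (key hc' hc hk b'.2 (h ▸ b.1)).elim
  subst hk
  have hc0 : c = c' := by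
    rcases lt_trichotomy c c' with h1 | h1 | h1
    · have : 4 ^ κ * (W + c + 1) ≤ 4 ^ κ * (W + c') := Nat.mul_le_mul_left _ (by omega)
      omega
    · exact h1
    · have : 4 ^ κ * (W + c' + 1) ≤ 4 ^ κ * (W + c) := Nat.mul_le_mul_left _ (by omega)
      omega
  subst hc0
  have h1 : x / q ^ g * 2 ^ κ + y / q ^ g = x' / q ^ g * 2 ^ κ + y' / q ^ g := by
    unfold win at h
    omega
  have h2 : x / q ^ g = x' / q ^ g := by
    have e1 : (x / q ^ g * 2 ^ κ + y / q ^ g) / 2 ^ κ = x / q ^ g := by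
      rw [mul_comm, Nat.mul_add_div (by positivity), Nat.div_eq_of_lt hy, add_zero]
    have e2 : (x' / q ^ g * 2 ^ κ + y' / q ^ g) / 2 ^ κ = x' / q ^ g := by
      rw [mul_comm, Nat.mul_add_div (by positivity), Nat.div_eq_of_lt hy', add_zero]
    rw [← e1, ← e2, h1]
  refine ⟨rfl, rfl, h2, ?_⟩
  rw [h2] at h1
  omega

/-- the elements of a block -/
def el (q g W : ℕ) (p : ℕ → ℕ) (i : ℕ × ℕ × ℕ) : ℕ :=
  2 * (q ^ g * (2 * q) ^ (g + 1)) * win q g W i.1 i.2.1 i.2.2 (i.2.2 ^ 2 % p i.1) +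
    cd q g (i.1 * W + i.2.1) (i.2.2 % q ^ g) ((i.2.2 ^ 2 % p i.1) % q ^ g)

/-- the index set of a block -/
def idx (K W : ℕ) (p : ℕ → ℕ) (L : ℕ) : Finset (ℕ × ℕ × ℕ) :=
  (range K ×ˢ (range W ×ˢ range L)).filter (fun i => i.2.2 < p i.1)

theorem mem_idx {K W : ℕ} {p : ℕ → ℕ} {L : ℕ} {i : ℕ × ℕ × ℕ} :
    i ∈ idx K W p L ↔ i.1 < K ∧ i.2.1 < W ∧ i.2.2 < L ∧ i.2.2 < p i.1 := by
  unfold idx
  simp only [mem_filter, mem_product, mem_range]
  tauto

/-- hypotheses on the parameters -/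
structure Par (q g K W : ℕ) (p : ℕ → ℕ) : Prop where
  hq : q.Prime
  hg : 1 ≤ g
  hW : 0 < W
  hKW : K * W ≤ q
  hp : ∀ κ < K, (p κ).Prime ∧ p κ ≠ 2 ∧ p κ ≤ q ^ g * 2 ^ κ

theorem low_lt {q g κ x p : ℕ} (hq : 0 < q) (hp : p ≤ q ^ g * 2 ^ κ) (hx : x < p) :
    x / q ^ g < 2 ^ κ := by
  rw [Nat.div_lt_iff_lt_mul (by positivity)]
  calc x < p := hx
    _ ≤ _ := by rw [mul_comm]; exact hp

/-- Elements at distance less than `D` lie in the same window. -/
theorem same_window {q g K W L : ℕ} {p : ℕ → ℕ} (H : Par q g K W p) {i k : ℕ × ℕ × ℕ}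
    (hi : i ∈ idx K W p L) (hk : k ∈ idx K W p L)
    (h1 : el q g W p i ≤ el q g W p k)
    (h2 : el q g W p k < el q g W p i + q ^ g * (2 * q) ^ (g + 1)) :
    i.1 = k.1 ∧ i.2.1 = k.2.1 ∧ i.2.2 / q ^ g = k.2.2 / q ^ g ∧
      (i.2.2 ^ 2 % p i.1) / q ^ g = (k.2.2 ^ 2 % p k.1) / q ^ g := by
  rw [mem_idx] at hi hk
  have hq := H.hq.pos
  obtain ⟨pi1, -, pi3⟩ := H.hp i.1 hi.1
  obtain ⟨pk1, -, pk3⟩ := H.hp k.1 hk.1
  have hQ : 0 < q ^ g := by positivity
  have ci := cd_lt (g := g) (t := i.1 * W + i.2.1) (x := i.2.2 % q ^ g) hq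
    (Nat.mod_lt (i.2.2 ^ 2 % p i.1) hQ)
  have ck := cd_lt (g := g) (t := k.1 * W + k.2.1) (x := k.2.2 % q ^ g) hq
    (Nat.mod_lt (k.2.2 ^ 2 % p k.1) hQ)
  unfold el at h1 h2
  set D := q ^ g * (2 * q) ^ (g + 1) with hD
  set wi := win q g W i.1 i.2.1 i.2.2 (i.2.2 ^ 2 % p i.1) with hwi
  set wk := win q g W k.1 k.2.1 k.2.2 (k.2.2 ^ 2 % p k.1) with hwk
  have hw : wi = wk := by
    rcases lt_trichotomy wi wk with h | h | h
    · have : 2 * D * (wi + 1) ≤ 2 * D * wk := Nat.mul_le_mul_left _ h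
      have e : 2 * D * (wi + 1) = 2 * D * wi + 2 * D := by ring
      omega
    · exact h
    · have : 2 * D * (wk + 1) ≤ 2 * D * wi := Nat.mul_le_mul_left _ h
      have e : 2 * D * (wk + 1) = 2 * D * wk + 2 * D := by ring
      omega
  exact win_inj hi.2.1 hk.2.1 (low_lt hq pi3 hi.2.2.2)
    (low_lt hq pi3 (Nat.mod_lt _ pi1.pos)) (low_lt hq pk3 hk.2.2.2)
    (low_lt hq pk3 (Nat.mod_lt _ pk1.pos)) hw

theorem eq_of_mod_div {a b Q : ℕ} (h1 : a % Q = b % Q) (h2 : a / Q = b / Q) : a = b := by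
  rw [← Nat.div_add_mod a Q, ← Nat.div_add_mod b Q, h1, h2]

theorem cast_mod_sub {a b Q : ℕ} (h : a / Q = b / Q) :
    (a : ℤ) - b = (a % Q : ℕ) - (b % Q : ℕ) := by
  have e1 := Nat.div_add_mod a Q
  have e2 := Nat.div_add_mod b Q
  rw [← h] at e2
  have e3 : (a : ℤ) = Q * (a / Q : ℕ) + (a % Q : ℕ) := by exact_mod_cast e1.symm
  have e4 : (b : ℤ) = Q * (a / Q : ℕ) + (b % Q : ℕ) := by exact_mod_cast e2.symm
  linarith

/-- The differences of the digits give the difference of the `x` coordinates. -/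
theorem x_diff {q g : ℕ} (hq : 0 < q) {x x' : ℕ}
    (hx : x / q ^ g = x' / q ^ g) :
    (x : ℤ) - x' = ∑ j ∈ range g,
      (((x % q ^ g) / q ^ j % q : ℕ) - ((x' % q ^ g) / q ^ j % q : ℕ) : ℤ) * (q : ℤ) ^ j := by
  rw [cast_mod_sub hx]
  have hQ : 0 < q ^ g := by positivity
  have h1 := sum_digits q g _ (Nat.mod_lt x hQ)
  have h2 := sum_digits q g _ (Nat.mod_lt x' hQ)
  simp only [sub_mul, sum_sub_distrib]
  congr 1
  · exact_mod_cast h1.symm
  · exact_mod_cast h2.symm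

end Pool.Agent.Work.MP_bbb683_h51
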