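import Mathlib
import Pool.Agent.Work.MP_bbb683_h51.Block

/-!
# Each small difference occurs at most `g` times in a block
-/

set_option autoImplicit false

namespace Pool.Agent.Work.MP_bbb683_h51

open Finset Polynomial

/-- the digits attached to an index -/
def dgi (q g W : ℕ) (p : ℕ → ℕ) (i : ℕ × ℕ × ℕ) (j : ℕ) : ℕ :=
  dg q g (i.1 * W + i.2.1) (i.2.2 % q ^ g) ((i.2.2 ^ 2 % p i.1) % q ^ g) j

theorem pair_cd {q g K W L : ℕ} {p : ℕ → ℕ} (H : Par q g K W p) {i k : ℕ × ℕ × ℕ}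
    (hi : i ∈ idx K W p L) (hk : k ∈ idx K W p L) {d : ℕ}
    (hd : d < q ^ g * (2 * q) ^ (g + 1)) (h : el q g W p k = el q g W p i + d) :
    (cd q g (k.1 * W + k.2.1) (k.2.2 % q ^ g) ((k.2.2 ^ 2 % p k.1) % q ^ g) : ℤ) -
      cd q g (i.1 * W + i.2.1) (i.2.2 % q ^ g) ((i.2.2 ^ 2 % p i.1) % q ^ g) = d := by
  obtain ⟨h1, h2, h3, h4⟩ := same_window H hi hk (by omega) (by omega)
  unfold el at h
  have hw : win q g W i.1 i.2.1 i.2.2 (i.2.2 ^ 2 % p i.1) =
      win q g W k.1 k.2.1 k.2.2 (k.2.2 ^ 2 % p k.1) := by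
    unfold win
    rw [h4, h3, h2, h1]
  rw [hw] at h
  omega

theorem dgi_diff {q g K W L : ℕ} {p : ℕ → ℕ} (H : Par q g K W p) {i k i' k' : ℕ × ℕ × ℕ}
    (hi : i ∈ idx K W p L) (hk : k ∈ idx K W p L) (hi' : i' ∈ idx K W p L)
    (hk' : k' ∈ idx K W p L) {d : ℕ}
    (hd : d < q ^ g * (2 * q) ^ (g + 1)) (h : el q g W p k = el q g W p i + d)
    (h' : el q g W p k' = el q g W p i' + d) {j : ℕ} (hj : j ≤ g + 1) :
    (dgi q g W p k j : ℤ) - dgi q g W p i j = dgi q g W p k' j - dgi q g W p i' j := by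
  obtain ⟨a1, a2, a3, a4⟩ := same_window H hi hk (by omega) (by omega)
  obtain ⟨b1, b2, b3, b4⟩ := same_window H hi' hk' (by omega) (by omega)
  have e1 := pair_cd H hi hk hd h
  have e2 := pair_cd H hi' hk' hd h'
  have e3 := e1.trans e2.symm
  unfold dgi
  rw [a1, a2] at e3 ⊢
  rw [b1, b2] at e3 ⊢
  exact cd_diff H.hq.pos e3 j hj

theorem x_diff_eq {q g K W L : ℕ} {p : ℕ → ℕ} (H : Par q g K W p) {i k i' k' : ℕ × ℕ × ℕ}
    (hi : i ∈ idx K W p L) (hk : k ∈ idx K W p L) (hi' : i' ∈ idx K W p L)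
    (hk' : k' ∈ idx K W p L) {d : ℕ}
    (hd : d < q ^ g * (2 * q) ^ (g + 1)) (h : el q g W p k = el q g W p i + d)
    (h' : el q g W p k' = el q g W p i' + d) :
    (k.2.2 : ℤ) - i.2.2 = k'.2.2 - i'.2.2 := by
  obtain ⟨a1, a2, a3, a4⟩ := same_window H hi hk (by omega) (by omega)
  obtain ⟨b1, b2, b3, b4⟩ := same_window H hi' hk' (by omega) (by omega)
  rw [x_diff H.hq.pos a3.symm, x_diff H.hq.pos b3.symm]
  refine sum_congr rfl fun j hj => ?_
  rw [mem_range] at hj
  have := dgi_diff H hi hk hi' hk' hd h h' (j := j) (by omega)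
  unfold dgi at this
  rw [dg_low hj, dg_low hj, dg_low hj, dg_low hj] at this
  rw [this]

theorem y_diff_eq {q g K W L : ℕ} {p : ℕ → ℕ} (H : Par q g K W p) {i k i' k' : ℕ × ℕ × ℕ}
    (hi : i ∈ idx K W p L) (hk : k ∈ idx K W p L) (hi' : i' ∈ idx K W p L)
    (hk' : k' ∈ idx K W p L) {d : ℕ}
    (hd : d < q ^ g * (2 * q) ^ (g + 1)) (h : el q g W p k = el q g W p i + d)
    (h' : el q g W p k' = el q g W p i' + d) :
    ((k.2.2 ^ 2 % p k.1 : ℕ) : ℤ) - (i.2.2 ^ 2 % p i.1 : ℕ) =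
      (k'.2.2 ^ 2 % p k'.1 : ℕ) - (i'.2.2 ^ 2 % p i'.1 : ℕ) := by
  obtain ⟨a1, a2, a3, a4⟩ := same_window H hi hk (by omega) (by omega)
  obtain ⟨b1, b2, b3, b4⟩ := same_window H hi' hk' (by omega) (by omega)
  rw [cast_mod_sub a4.symm, cast_mod_sub b4.symm]
  have := dgi_diff H hi hk hi' hk' hd h h' (j := g + 1) le_rfl
  unfold dgi at this
  rw [dg_top, dg_top, dg_top, dg_top] at this
  exact this

/-- The slope of a pair is a root of the polynomial of its difference. -/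
theorem slope_root {q g K W L : ℕ} {p : ℕ → ℕ} (H : Par q g K W p) {i k : ℕ × ℕ × ℕ}
    (hi : i ∈ idx K W p L) (hk : k ∈ idx K W p L) {d : ℕ}
    (hd : d < q ^ g * (2 * q) ^ (g + 1)) (h : el q g W p k = el q g W p i + d)
    (δ : ℕ → ℤ) (hδ : ∀ j ≤ g + 1, (dgi q g W p k j : ℤ) - dgi q g W p i j = δ j) :
    ∑ j ∈ range g, (δ j : ZMod q) * ((i.1 * W + i.2.1 : ℕ) : ZMod q) ^ (j + 1) = δ g := by
  obtain ⟨a1, a2, a3, a4⟩ := same_window H hi hk (by omega) (by omega)
  have hv : ∀ t x : ℕ, ((vv q g t x : ℕ) : ZMod q) =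
      ∑ j ∈ range g, ((x / q ^ j % q : ℕ) : ZMod q) * (t : ZMod q) ^ (j + 1) := by
    intro t x
    unfold vv
    rw [ZMod.natCast_mod, Nat.cast_sum]
    refine sum_congr rfl fun j _ => ?_
    rw [Nat.cast_mul, Nat.cast_pow]
  have hg := hδ g (by omega)
  unfold dgi at hg
  rw [dg_mid, dg_mid] at hg
  rw [← hg, Int.cast_sub, Int.cast_natCast, Int.cast_natCast]
  rw [hv, hv, ← a1, ← a2, ← sum_sub_distrib]
  refine sum_congr rfl fun j hj => ?_
  rw [mem_range] at hj
  have h2 := hδ j (by omega)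
  unfold dgi at h2
  rw [dg_low hj, dg_low hj] at h2
  rw [← h2, Int.cast_sub, Int.cast_natCast, Int.cast_natCast, sub_mul]

theorem idx_eq {q g K W L : ℕ} {p : ℕ → ℕ} (H : Par q g K W p) {i k : ℕ × ℕ × ℕ}
    (hi : i ∈ idx K W p L) (hk : k ∈ idx K W p L)
    (h : ((i.1 * W + i.2.1 : ℕ) : ZMod q) = ((k.1 * W + k.2.1 : ℕ) : ZMod q)) :
    i.1 = k.1 ∧ i.2.1 = k.2.1 := by
  rw [mem_idx] at hi hk
  have hlt : ∀ {κ c : ℕ}, κ < K → c < W → κ * W + c < q := by
    intro κ c h1 h2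
    have : (κ + 1) * W ≤ K * W := Nat.mul_le_mul_right _ h1
    have e : (κ + 1) * W = κ * W + W := by ring
    have := H.hKW
    omega
  have h1 := Nat.ModEq.eq_of_lt_of_lt ((ZMod.natCast_eq_natCast_iff _ _ _).1 h)
    (hlt hi.1 hi.2.1) (hlt hk.1 hk.2.1)
  have e1 : (i.1 * W + i.2.1) / W = i.1 := by
    rw [mul_comm, Nat.mul_add_div H.hW, Nat.div_eq_of_lt hi.2.1, add_zero]
  have e2 : (k.1 * W + k.2.1) / W = k.1 := by
    rw [mul_comm, Nat.mul_add_div H.hW, Nat.div_eq_of_lt hk.2.1, add_zero]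
  have e3 : i.1 = k.1 := by rw [← e1, ← e2, h1]
  refine ⟨e3, ?_⟩
  rw [e3] at h1
  omega

/-- Each difference `0 < d < D` has at most `g` representations in a block. -/
theorem count_le {q g K W L : ℕ} {p : ℕ → ℕ} (H : Par q g K W p) {d : ℕ} (hd0 : 0 < d)
    (hd : d < q ^ g * (2 * q) ^ (g + 1)) :
    ((idx K W p L).filter
      (fun i => ∃ k ∈ idx K W p L, el q g W p k = el q g W p i + d)).card ≤ g := by
  classical
  haveI : Fact q.Prime := ⟨H.hq⟩
  rcases Finset.eq_empty_or_nonempty ((idx K W p L).filter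
      (fun i => ∃ k ∈ idx K W p L, el q g W p k = el q g W p i + d)) with h0 | ⟨i₀, h0⟩
  · rw [h0]; simp
  obtain ⟨hi₀, k₀, hk₀, h₀⟩ := mem_filter.1 h0
  set δ : ℕ → ℤ := fun j => (dgi q g W p k₀ j : ℤ) - dgi q g W p i₀ j with hδ
  set P : (ZMod q)[X] := ∑ j ∈ range g, C (δ j : ZMod q) * X ^ (j + 1) - C (δ g : ZMod q) with hP
  have hP0 : P ≠ 0 := by
    intro hP0
    have hc : ∀ j < g, δ j = 0 := by
      intro j hj
      have h1 : P.coeff (j + 1) = (δ j : ZMod q) := by
        rw [hP, coeff_sub, finset_sum_coeff, coeff_C_succ, sub_zero]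
        rw [Finset.sum_eq_single j]
        · simp
        · intro b _ hb
          rw [coeff_C_mul, coeff_X_pow, if_neg (by omega), mul_zero]
        · intro hb; exact absurd (mem_range.2 hj) hb
      rw [hP0, coeff_zero] at h1
      have h2 := (ZMod.intCast_zmod_eq_zero_iff_dvd _ _).1 h1.symm
      refine Int.eq_zero_of_abs_lt_dvd h2 ?_
      have a1 := dg_lt (g := g) (t := k₀.1 * W + k₀.2.1) (x := k₀.2.2 % q ^ g)
        (z := (k₀.2.2 ^ 2 % p k₀.1) % q ^ g) H.hq.pos (j := j) (by omega)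
      have a2 := dg_lt (g := g) (t := i₀.1 * W + i₀.2.1) (x := i₀.2.2 % q ^ g)
        (z := (i₀.2.2 ^ 2 % p i₀.1) % q ^ g) H.hq.pos (j := j) (by omega)
      simp only [hδ, dgi]
      rw [abs_lt]
      constructor <;> omega
    obtain ⟨a1, a2, a3, a4⟩ := same_window H hi₀ hk₀ (by omega) (by omega)
    have h1 := x_diff H.hq.pos a3.symm
    have h2 : (k₀.2.2 : ℤ) - i₀.2.2 = 0 := by
      rw [h1]
      refine sum_eq_zero fun j hj => ?_
      rw [mem_range] at hj
      have := hc j hj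
      simp only [hδ, dgi] at this
      rw [dg_low hj, dg_low hj] at this
      rw [this, zero_mul]
    have h3 : i₀ = k₀ := by
      ext
      · exact a1
      · exact a2
      · omega
    rw [h3] at h₀
    omega
  have hdeg : P.natDegree ≤ g := by
    refine (natDegree_sub_le _ _).trans (max_le ?_ (by simp))
    refine natDegree_sum_le_of_forall_le _ _ fun j hj => ?_
    refine (natDegree_C_mul_X_pow_le _ _).trans ?_
    have := mem_range.1 hj
    omega
  have hcard : ((idx K W p L).filter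
      (fun i => ∃ k ∈ idx K W p L, el q g W p k = el q g W p i + d)).card ≤
      P.roots.toFinset.card := by
    refine card_le_card_of_injOn (fun i => ((i.1 * W + i.2.1 : ℕ) : ZMod q)) ?_ ?_
    · intro i hi
      obtain ⟨hi, k, hk, h⟩ := mem_filter.1 hi
      simp only [coe_filter, Multiset.mem_toFinset, Set.mem_setOf_eq, mem_coe]
      rw [mem_roots hP0, IsRoot.def, hP, eval_sub, eval_finset_sum, eval_C, sub_eq_zero]
      have := slope_root H hi hk hd h δ
        (fun j hj => dgi_diff H hi hk hi₀ hk₀ hd h h₀ hj)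
      rw [← this]
      refine sum_congr rfl fun j _ => ?_
      rw [eval_mul, eval_C, eval_pow, eval_X]
    · intro i hi i' hi' hii
      obtain ⟨hi, k, hk, h⟩ := mem_filter.1 hi
      obtain ⟨hi', k', hk', h'⟩ := mem_filter.1 hi'
      obtain ⟨e1, e2⟩ := idx_eq H hi hi' hii
      obtain ⟨a1, a2, a3, a4⟩ := same_window H hi hk (by omega) (by omega)
      obtain ⟨b1, b2, b3, b4⟩ := same_window H hi' hk' (by omega) (by omega)
      have hx := x_diff_eq H hi hk hi' hk' hd h h'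
      have hy := y_diff_eq H hi hk hi' hk' hd h h'
      have mi := mem_idx.1 hi
      have mk := mem_idx.1 hk
      have mi' := mem_idx.1 hi'
      have mk' := mem_idx.1 hk'
      obtain ⟨p1, p2, -⟩ := H.hp i.1 mi.1
      rw [← a1, ← b1, ← e1] at hy
      have hne : k.2.2 ≠ i.2.2 := by
        intro hne
        have : i = k := by
          ext
          · exact a1
          · exact a2
          · exact hne.symm
        rw [this] at h
        omega
      have := parabola p1 p2 (x := k.2.2) (x' := i.2.2) (y := k'.2.2) (y' := i'.2.2)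
        (by rw [a1]; exact mk.2.2.2) mi.2.2.2 (by rw [e1, b1]; exact mk'.2.2.2)
        (by rw [e1]; exact mi'.2.2.2) hne hx hy
      ext
      · exact e1
      · exact e2
      · exact this.2
  exact hcard.trans ((Multiset.toFinset_card_le _).trans ((card_roots' P).trans hdeg))

theorem count_image_le {q g K W L : ℕ} {p : ℕ → ℕ} (H : Par q g K W p) {d : ℕ} (hd0 : 0 < d)
    (hd : d < q ^ g * (2 * q) ^ (g + 1)) :
    (((idx K W p L).image (el q g W p)).filter
      (fun b => b + d ∈ (idx K W p L).image (el q g W p))).card ≤ g := by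
  refine le_trans ?_ (count_le H (L := L) hd0 hd)
  have : ((idx K W p L).image (el q g W p)).filter
      (fun b => b + d ∈ (idx K W p L).image (el q g W p)) ⊆
      ((idx K W p L).filter (fun i => ∃ k ∈ idx K W p L,
        el q g W p k = el q g W p i + d)).image (el q g W p) := by
    intro b hb
    obtain ⟨hb1, hb2⟩ := mem_filter.1 hb
    obtain ⟨i, hi, rfl⟩ := mem_image.1 hb1
    obtain ⟨k, hk, hk2⟩ := mem_image.1 hb2
    exact mem_image.2 ⟨i, mem_filter.2 ⟨hi, k, hk, hk2⟩, rfl⟩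
  exact (card_le_card this).trans card_image_le

/-- The elements of a block are distinct. -/
theorem el_inj {q g K W L : ℕ} {p : ℕ → ℕ} (H : Par q g K W p) {i k : ℕ × ℕ × ℕ}
    (hi : i ∈ idx K W p L) (hk : k ∈ idx K W p L) (h : el q g W p i = el q g W p k) : i = k := by
  have hD : 0 < q ^ g * (2 * q) ^ (g + 1) := by
    have := H.hq.pos
    positivity
  obtain ⟨a1, a2, a3, a4⟩ := same_window H hi hk (by omega) (by omega)
  have e1 := pair_cd H hi hk (d := 0) hD (by omega)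
  rw [← a1, ← a2] at e1
  have e2 := cd_diff H.hq.pos (t := i.1 * W + i.2.1) (s := 0) (y := 0) (w := 0) (y' := 0)
    (w' := 0) (by rw [e1]; simp)
  have h2 : (k.2.2 : ℤ) - i.2.2 = 0 := by
    rw [x_diff H.hq.pos a3.symm]
    refine sum_eq_zero fun j hj => ?_
    rw [mem_range] at hj
    have := e2 j (by omega)
    rw [dg_low hj, dg_low hj, sub_self] at this
    rw [this, zero_mul]
  ext
  · exact a1
  · exact a2
  · omega

end Pool.Agent.Work.MP_bbb683_h51
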