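import Mathlib
import Pool.Agent.Work.MP_bbb683_h51.Count

/-!
# Size of a block
-/

set_option autoImplicit false

namespace Pool.Agent.Work.MP_bbb683_h51

open Finset

theorem el_lower {q g K W L : ℕ} {p : ℕ → ℕ} (H : Par q g K W p) {i : ℕ × ℕ × ℕ}
    (hi : i ∈ idx K W p L) : 2 * (q ^ g * (2 * q) ^ (g + 1)) ≤ el q g W p i := by
  rw [mem_idx] at hi
  have hq := H.hq.pos
  obtain ⟨pi1, -, pi3⟩ := H.hp i.1 hi.1
  have b := win_bounds (q := q) (g := g) (W := W) (κ := i.1) (c := i.2.1)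
    (low_lt hq pi3 hi.2.2.2) (low_lt hq pi3 (Nat.mod_lt (i.2.2 ^ 2) pi1.pos))
  have h1 : 1 ≤ 4 ^ i.1 * (W + i.2.1) := by
    have := H.hW
    exact Nat.mul_pos (by positivity) (by omega)
  unfold el
  calc 2 * (q ^ g * (2 * q) ^ (g + 1)) = 2 * (q ^ g * (2 * q) ^ (g + 1)) * 1 := by ring
    _ ≤ 2 * (q ^ g * (2 * q) ^ (g + 1)) *
        win q g W i.1 i.2.1 i.2.2 (i.2.2 ^ 2 % p i.1) := Nat.mul_le_mul_left _ (h1.trans b.1)
    _ ≤ _ := Nat.le_add_right _ _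

theorem el_upper {q g K W L : ℕ} {p : ℕ → ℕ} (H : Par q g K W p) {i : ℕ × ℕ × ℕ}
    (hi : i ∈ idx K W p L) :
    el q g W p i ≤ 4 * (q ^ g * (2 * q) ^ (g + 1)) * 4 ^ i.1 * W := by
  rw [mem_idx] at hi
  have hq := H.hq.pos
  obtain ⟨pi1, -, pi3⟩ := H.hp i.1 hi.1
  have hQ : 0 < q ^ g := by positivity
  have b := win_bounds (q := q) (g := g) (W := W) (κ := i.1) (c := i.2.1)
    (low_lt hq pi3 hi.2.2.2) (low_lt hq pi3 (Nat.mod_lt (i.2.2 ^ 2) pi1.pos))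
  have ci := cd_lt (g := g) (t := i.1 * W + i.2.1) (x := i.2.2 % q ^ g) hq
    (Nat.mod_lt (i.2.2 ^ 2 % p i.1) hQ)
  unfold el
  set D := q ^ g * (2 * q) ^ (g + 1)
  set w := win q g W i.1 i.2.1 i.2.2 (i.2.2 ^ 2 % p i.1)
  calc 2 * D * w + cd q g (i.1 * W + i.2.1) (i.2.2 % q ^ g) ((i.2.2 ^ 2 % p i.1) % q ^ g)
      ≤ 2 * D * w + 2 * D := by omega
    _ = 2 * D * (w + 1) := by ring
    _ ≤ 2 * D * (4 ^ i.1 * (W + i.2.1 + 1)) := Nat.mul_le_mul_left _ b.2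
    _ ≤ 2 * D * (4 ^ i.1 * (2 * W)) := Nat.mul_le_mul_left _ (Nat.mul_le_mul_left _ (by omega))
    _ = 4 * D * 4 ^ i.1 * W := by ring

theorem sum_idx {K W L : ℕ} {p : ℕ → ℕ} (hL : ∀ κ < K, p κ ≤ L) (a : ℕ → ℝ) :
    ∑ i ∈ idx K W p L, a i.1 = ∑ κ ∈ range K, (W : ℝ) * (p κ) * a κ := by
  unfold idx
  rw [sum_filter, sum_product]
  refine sum_congr rfl fun κ hκ => ?_
  rw [sum_product]
  simp only
  rw [sum_const, card_range, nsmul_eq_mul, ← sum_filter, sum_const, nsmul_eq_mul]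
  have : (range L).filter (fun x => x < p κ) = range (p κ) := by
    ext x
    simp only [mem_filter, mem_range]
    have := hL κ (mem_range.1 hκ)
    omega
  rw [this, card_range]
  ring

theorem block_sum {q g K W L : ℕ} {p : ℕ → ℕ} (H : Par q g K W p) (hK : 0 < K)
    (hL : ∀ κ < K, p κ ≤ L)
    (hp' : ∀ κ < K, q ^ g * 2 ^ κ ≤ 2 * p κ) (hWK : q ≤ 2 * (W * K)) :
    √(K : ℝ) / (4 * √((2 : ℝ) ^ (g + 2))) ≤
      ∑ b ∈ (idx K W p L).image (el q g W p), 1 / √(b : ℝ) := by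
  classical
  rw [sum_image (fun i hi k hk h => el_inj H hi hk h)]
  set R : ℝ := √((2 : ℝ) ^ (g + 2) * K) with hR
  have hK0 : (0 : ℝ) < K := by exact_mod_cast hK
  have hR0 : 0 < R := Real.sqrt_pos.2 (by positivity)
  have hq := H.hq.pos
  have hW := H.hW
  have hterm : ∀ i ∈ idx K W p L, 1 / (4 * W * p i.1 * R) ≤ 1 / √(el q g W p i : ℝ) := by
    intro i hi
    have hi' := mem_idx.1 hi
    obtain ⟨pi1, -, pi3⟩ := H.hp i.1 hi'.1
    have hl := el_lower H hi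
    have hu := el_upper H hi
    have hD : 0 < q ^ g * (2 * q) ^ (g + 1) := by positivity
    have hel : (0 : ℝ) < el q g W p i := by exact_mod_cast (by omega)
    refine one_div_le_one_div_of_le (Real.sqrt_pos.2 hel) ?_
    have hnat : el q g W p i ≤ (4 * W * p i.1) ^ 2 * (2 ^ (g + 2) * K) := by
      refine hu.trans ?_
      have e1 : (q ^ g * 2 ^ i.1) ^ 2 ≤ (2 * p i.1) ^ 2 := Nat.pow_le_pow_left (hp' _ hi'.1) 2
      have e2 : q * (q ^ g * 2 ^ i.1) ^ 2 ≤ 2 * (W * K) * (2 * p i.1) ^ 2 :=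
        Nat.mul_le_mul hWK e1
      calc 4 * (q ^ g * (2 * q) ^ (g + 1)) * 4 ^ i.1 * W
          = 4 * 2 ^ (g + 1) * W * (q * (q ^ g * 2 ^ i.1) ^ 2) := by
            have : (4 : ℕ) ^ i.1 = 2 ^ i.1 * 2 ^ i.1 := by rw [← mul_pow]; norm_num
            rw [this, mul_pow 2 q]
            ring
        _ ≤ 4 * 2 ^ (g + 1) * W * (2 * (W * K) * (2 * p i.1) ^ 2) := Nat.mul_le_mul_left _ e2
        _ = (4 * W * p i.1) ^ 2 * (2 ^ (g + 2) * K) := by
            rw [pow_succ 2 (g + 1)]; ring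
    have hreal : (el q g W p i : ℝ) ≤ (4 * W * p i.1) ^ 2 * (2 ^ (g + 2) * K) := by
      exact_mod_cast hnat
    calc √(el q g W p i : ℝ) ≤ √((4 * (W : ℝ) * p i.1) ^ 2 * (2 ^ (g + 2) * K)) :=
          Real.sqrt_le_sqrt hreal
      _ = 4 * W * p i.1 * R := by
          rw [Real.sqrt_mul (by positivity), Real.sqrt_sq (by positivity)]
  calc √(K : ℝ) / (4 * √((2 : ℝ) ^ (g + 2))) = K * (1 / (4 * R)) := by
        rw [hR, Real.sqrt_mul (by positivity)]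
        have : (K : ℝ) = √(K : ℝ) * √(K : ℝ) := (Real.mul_self_sqrt hK0.le).symm
        have h1 : √(K : ℝ) ≠ 0 := (Real.sqrt_pos.2 hK0).ne'
        have h2 : √((2 : ℝ) ^ (g + 2)) ≠ 0 := (Real.sqrt_pos.2 (by positivity)).ne'
        nth_rewrite 2 [this]
        field_simp
    _ = ∑ κ ∈ range K, (W : ℝ) * p κ * (1 / (4 * W * p κ * R)) := by
        have hc : ∀ κ ∈ range K, (W : ℝ) * p κ * (1 / (4 * W * p κ * R)) = 1 / (4 * R) := by
          intro κ hκ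
          have hp0 : (p κ : ℝ) ≠ 0 := by
            have := (H.hp κ (mem_range.1 hκ)).1.pos
            exact_mod_cast this.ne'
          have hW0 : (W : ℝ) ≠ 0 := by exact_mod_cast hW.ne'
          field_simp
        rw [sum_congr rfl hc, sum_const, card_range, nsmul_eq_mul]
    _ = ∑ i ∈ idx K W p L, 1 / (4 * W * p i.1 * R) :=
        (sum_idx hL (fun κ => 1 / (4 * (W : ℝ) * p κ * R))).symm
    _ ≤ _ := sum_le_sum hterm

theorem exists_primes (q g : ℕ) (hq : 5 ≤ q) (hg : 1 ≤ g) (κ : ℕ) :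
    ∃ p : ℕ, p.Prime ∧ p ≠ 2 ∧ p ≤ q ^ g * 2 ^ κ ∧ q ^ g * 2 ^ κ ≤ 2 * p := by
  have h1 : 5 ≤ q ^ g * 2 ^ κ := by
    calc 5 ≤ q := hq
      _ = q ^ 1 * 1 := by ring
      _ ≤ q ^ g * 2 ^ κ := Nat.mul_le_mul (Nat.pow_le_pow_right (by omega) hg)
          (Nat.one_le_two_pow)
  obtain ⟨p, hp, h2, h3⟩ := Nat.exists_prime_lt_and_le_two_mul (q ^ g * 2 ^ κ / 2) (by omega)
  exact ⟨p, hp, by omega, by omega, by omega⟩

/-- Existence of blocks. -/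
theorem block_exists (g m K : ℕ) (hg : 1 ≤ g) (hm : 1 ≤ m) (hK : 2 ^ (g + 3) ≤ K) :
    ∃ (q D M : ℕ) (B : Finset ℕ), 4 ^ (K * m) ≤ q ∧ q ≤ 2 * 4 ^ (K * m) ∧ q ^ (2 * g + 1) ≤ D ∧
      M ≤ q ^ (2 * g + 2) * 4 ^ K ∧
      (∀ b ∈ B, 2 * D ≤ b ∧ b ≤ M) ∧
      (∀ d, 0 < d → d < D → (B.filter (fun b => b + d ∈ B)).card ≤ g) ∧
      √(K : ℝ) / (4 * √((2 : ℝ) ^ (g + 2))) ≤ ∑ b ∈ B, 1 / √(b : ℝ) := by
  have hK0 : 0 < K := lt_of_lt_of_le (by positivity) hK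
  obtain ⟨q, hq, hq1, hq2⟩ := Nat.exists_prime_lt_and_le_two_mul (4 ^ (K * m)) (by positivity)
  have hKq : K ≤ q := by
    have h1 : K < 4 ^ K := Nat.lt_pow_self (by norm_num)
    have h2 : 4 ^ K ≤ 4 ^ (K * m) := Nat.pow_le_pow_right (by norm_num) (Nat.le_mul_of_pos_right _ hm)
    omega
  have hK16 : 16 ≤ K := by
    have : 2 ^ 4 ≤ 2 ^ (g + 3) := Nat.pow_le_pow_right (by norm_num) (by omega)
    omega
  choose p hp using exists_primes q g (by omega) hg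
  set W := q / K with hWdef
  have hW : 0 < W := Nat.div_pos hKq hK0
  have H : Par q g K W p :=
    ⟨hq, hg, hW, by rw [mul_comm]; exact Nat.div_mul_le_self _ _,
      fun κ _ => ⟨(hp κ).1, (hp κ).2.1, (hp κ).2.2.1⟩⟩
  have hL : ∀ κ < K, p κ ≤ q ^ g * 2 ^ K := fun κ hκ =>
    (hp κ).2.2.1.trans (Nat.mul_le_mul_left _ (Nat.pow_le_pow_right (by norm_num) hκ.le))
  refine ⟨q, q ^ g * (2 * q) ^ (g + 1), 4 * (q ^ g * (2 * q) ^ (g + 1)) * 4 ^ K * W,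
    (idx K W p (q ^ g * 2 ^ K)).image (el q g W p), hq1.le, hq2, ?_, ?_, ?_, ?_, ?_⟩
  · rw [mul_pow]
    calc q ^ (2 * g + 1) = q ^ g * (1 * q ^ (g + 1)) := by ring
      _ ≤ q ^ g * (2 ^ (g + 1) * q ^ (g + 1)) :=
        Nat.mul_le_mul_left _ (Nat.mul_le_mul_right _ Nat.one_le_two_pow)
  · have h1 : 2 ^ (g + 3) * W ≤ q := (Nat.mul_le_mul_right _ hK).trans
      (by rw [mul_comm]; exact Nat.div_mul_le_self _ _)
    calc 4 * (q ^ g * (2 * q) ^ (g + 1)) * 4 ^ K * W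
        = (2 ^ (g + 3) * W) * (q ^ (2 * g + 1) * 4 ^ K) := by
          rw [mul_pow]; ring
      _ ≤ q * (q ^ (2 * g + 1) * 4 ^ K) := Nat.mul_le_mul_right _ h1
      _ = q ^ (2 * g + 2) * 4 ^ K := by ring
  · intro b hb
    obtain ⟨i, hi, rfl⟩ := mem_image.1 hb
    refine ⟨el_lower H hi, (el_upper H hi).trans ?_⟩
    have hi' := mem_idx.1 hi
    exact Nat.mul_le_mul_right _ (Nat.mul_le_mul_left _
      (Nat.pow_le_pow_right (by norm_num) hi'.1.le))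
  · intro d hd0 hd
    exact count_image_le H hd0 hd
  · refine block_sum H hK0 hL (fun κ _ => (hp κ).2.2.2) ?_
    have h1 : q < K * (W + 1) := by
      have := Nat.div_add_mod q K
      have h2 := Nat.mod_lt q hK0
      have h3 : K * (W + 1) = K * W + K := by ring
      rw [← hWdef] at this
      omega
    have h2 : K * (W + 1) ≤ 2 * (W * K) := by
      have : K * (W + 1) ≤ K * (2 * W) := Nat.mul_le_mul_left _ (by omega)
      calc K * (W + 1) ≤ K * (2 * W) := this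
        _ = 2 * (W * K) := by ring
    omega

end Pool.Agent.Work.MP_bbb683_h51
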