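import Mathlib
import Pool.Agent.Work.MP_bbb683_h51.Size

/-!
# Blocks with a real exponent
-/

set_option autoImplicit false

namespace Pool.Agent.Work.MP_bbb683_h51

open Finset

theorem block_final (g : ℕ) (hg : 1 ≤ g) (η : ℝ) (hη : η < (2 * g + 1) / (2 * g + 2)) :
    ∃ c : ℝ, 0 < c ∧ ∀ N : ℕ, ∃ (D M : ℕ) (B : Finset ℕ), N ≤ D ∧ 1 ≤ D ∧ D ≤ M ∧
      (M : ℝ) ^ η ≤ D ∧ (∀ b ∈ B, 2 * D ≤ b ∧ b ≤ M) ∧
      (∀ d, 0 < d → d < D → (B.filter (fun b => b + d ∈ B)).card ≤ g) ∧
      c * √(Real.log M) ≤ ∑ b ∈ B, 1 / √(b : ℝ) := by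
  have hg0 : (1 : ℝ) ≤ g := by exact_mod_cast hg
  set η' : ℝ := max η 0 with hη'
  have hlt1 : (2 * (g : ℝ) + 1) / (2 * g + 2) < 1 := by
    rw [div_lt_one (by positivity)]; linarith
  have hη'lt : η' < (2 * g + 1) / (2 * g + 2) := max_lt hη (by positivity)
  have hη'0 : 0 ≤ η' := le_max_right _ _
  have hη'1 : η' ≤ 1 := (hη'lt.trans hlt1).le
  set δ : ℝ := (2 * g + 1) / (2 * g + 2) - η' with hδ
  have hδ0 : 0 < δ := by rw [hδ]; linarith
  obtain ⟨m, hm⟩ := exists_nat_gt (1 / δ)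
  have hm0 : (0 : ℝ) < m := lt_trans (by positivity) hm
  have hm1 : 1 ≤ m := by
    have : 0 < m := by exact_mod_cast hm0
    exact this
  have hm1' : (1 : ℝ) ≤ m := by exact_mod_cast hm1
  have hmδ : 1 / (m : ℝ) ≤ δ := by
    rw [div_le_iff₀ hm0]
    rw [div_lt_iff₀ hδ0] at hm
    linarith
  have hkey : η' * (2 * g + 2 + 1 / m) ≤ 2 * g + 1 := by
    have e1 : η' * (2 * g + 2) = (2 * g + 1) - δ * (2 * g + 2) := by
      rw [hδ]; field_simp; ring
    have e2 : η' * (1 / m) ≤ 1 * δ := mul_le_mul hη'1 hmδ (by positivity) (by norm_num)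
    have e3 : δ * 1 ≤ δ * (2 * g + 2) := mul_le_mul_of_nonneg_left (by linarith) hδ0.le
    calc η' * (2 * g + 2 + 1 / m) = η' * (2 * g + 2) + η' * (1 / m) := by ring
      _ ≤ (2 * g + 1) - δ * (2 * g + 2) + 1 * δ := by linarith
      _ ≤ 2 * g + 1 := by linarith
  refine ⟨1 / (4 * √((2 : ℝ) ^ (g + 2)) * √((2 * g + 3) * 4 * m)), by positivity, ?_⟩
  intro N
  set K := max (2 ^ (g + 3)) N with hK
  have hK1 : 1 ≤ K := le_trans Nat.one_le_two_pow (le_max_left _ _)
  have hK1' : (1 : ℝ) ≤ K := by exact_mod_cast hK1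
  obtain ⟨q, D, M, B, h1, h2, h3, h4, h5, h6, h7⟩ :=
    block_exists g m K hg hm1 (le_max_left _ _)
  have hq1 : 1 ≤ q := le_trans (Nat.one_le_pow _ _ (by norm_num)) h1
  have hq0 : (0 : ℝ) < q := by exact_mod_cast hq1
  have hKq : K ≤ q := by
    have e1 : K < 4 ^ K := Nat.lt_pow_self (by norm_num)
    have e2 : 4 ^ K ≤ 4 ^ (K * m) :=
      Nat.pow_le_pow_right (by norm_num) (Nat.le_mul_of_pos_right _ hm1)
    omega
  have hqD : q ≤ D := by
    calc q = q ^ 1 := (pow_one q).symm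
      _ ≤ q ^ (2 * g + 1) := Nat.pow_le_pow_right hq1 (by omega)
      _ ≤ D := h3
  have hBne : B.Nonempty := by
    by_contra hB
    rw [not_nonempty_iff_eq_empty] at hB
    rw [hB, sum_empty] at h7
    have : 0 < √(K : ℝ) / (4 * √((2 : ℝ) ^ (g + 2))) := by positivity
    linarith
  have hDM : D ≤ M := by
    obtain ⟨b, hb⟩ := hBne
    have := h5 b hb
    omega
  have hM1 : 1 ≤ M := by omega
  have hM0 : (0 : ℝ) < M := by exact_mod_cast hM1
  have hD0 : (0 : ℝ) < D := by exact_mod_cast (by omega : 0 < D)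
  have hlogM : Real.log M ≤ (2 * g + 2) * Real.log q + K * Real.log 4 := by
    have e1 : (M : ℝ) ≤ (q : ℝ) ^ (2 * g + 2) * 4 ^ K := by exact_mod_cast h4
    calc Real.log M ≤ Real.log ((q : ℝ) ^ (2 * g + 2) * 4 ^ K) := Real.log_le_log hM0 e1
      _ = _ := by
        rw [Real.log_mul (by positivity) (by positivity), Real.log_pow, Real.log_pow]
        push_cast; ring
  have hlogq : K * m * Real.log 4 ≤ Real.log q := by
    have e1 : (4 : ℝ) ^ (K * m) ≤ q := by exact_mod_cast h1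
    have e2 := Real.log_le_log (by positivity) e1
    rw [Real.log_pow] at e2
    push_cast at e2
    exact e2
  have hlog4 : 0 < Real.log 4 := Real.log_pos (by norm_num)
  have hlogq0 : 0 ≤ Real.log q := Real.log_nonneg (by exact_mod_cast hq1)
  have hK4 : K * Real.log 4 ≤ 1 / m * Real.log q := by
    rw [one_div, inv_mul_eq_div, le_div_iff₀ hm0]
    linarith
  have hlogD : (2 * g + 1) * Real.log q ≤ Real.log D := by
    have e1 : (q : ℝ) ^ (2 * g + 1) ≤ D := by exact_mod_cast h3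
    have e2 := Real.log_le_log (by positivity) e1
    rw [Real.log_pow] at e2
    push_cast at e2
    exact e2
  refine ⟨D, M, B, ?_, by omega, hDM, ?_, h5, h6, ?_⟩
  · exact (le_max_right _ _).trans (hKq.trans hqD)
  · have e1 : (M : ℝ) ^ η ≤ (M : ℝ) ^ η' :=
      Real.rpow_le_rpow_of_exponent_le (by exact_mod_cast hM1) (le_max_left _ _)
    refine e1.trans ?_
    rw [Real.rpow_def_of_pos hM0]
    have e2 : Real.log M * η' ≤ Real.log D := by
      calc Real.log M * η' ≤ ((2 * g + 2) * Real.log q + 1 / m * Real.log q) * η' :=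
            mul_le_mul_of_nonneg_right (by linarith) hη'0
        _ = η' * (2 * g + 2 + 1 / m) * Real.log q := by ring
        _ ≤ (2 * g + 1) * Real.log q := mul_le_mul_of_nonneg_right hkey hlogq0
        _ ≤ Real.log D := hlogD
    calc Real.exp (Real.log M * η') ≤ Real.exp (Real.log D) := Real.exp_le_exp.2 e2
      _ = D := Real.exp_log hD0
  · have e1 : Real.log q ≤ 4 * (K * m) := by
      have f1 : (q : ℝ) ≤ 2 * 4 ^ (K * m) := by exact_mod_cast h2
      have f2 := Real.log_le_log hq0 f1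
      rw [Real.log_mul (by norm_num) (by positivity), Real.log_pow] at f2
      push_cast at f2
      have f3 : Real.log 4 = 2 * Real.log 2 := by
        rw [show (4 : ℝ) = 2 ^ 2 by norm_num, Real.log_pow]; norm_num
      have f4 : Real.log 2 ≤ 1 := by
        have := Real.log_two_lt_d9
        linarith
      have f5 : (1 : ℝ) ≤ K * m := by nlinarith
      rw [f3] at f2
      nlinarith
    have e2 : Real.log M ≤ (2 * g + 3) * 4 * m * K := by
      have f1 : 1 / (m : ℝ) * Real.log q ≤ 1 * Real.log q := by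
        apply mul_le_mul_of_nonneg_right _ hlogq0
        rw [div_le_one hm0]; exact hm1'
      calc Real.log M ≤ (2 * g + 2) * Real.log q + 1 * Real.log q := by linarith
        _ = (2 * g + 3) * Real.log q := by ring
        _ ≤ (2 * g + 3) * (4 * (K * m)) := mul_le_mul_of_nonneg_left e1 (by positivity)
        _ = _ := by ring
    refine le_trans ?_ h7
    calc 1 / (4 * √((2 : ℝ) ^ (g + 2)) * √((2 * g + 3) * 4 * m)) * √(Real.log M)
        ≤ 1 / (4 * √((2 : ℝ) ^ (g + 2)) * √((2 * g + 3) * 4 * m)) *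
          √((2 * g + 3) * 4 * m * K) :=
          mul_le_mul_of_nonneg_left (Real.sqrt_le_sqrt e2) (by positivity)
      _ = √(K : ℝ) / (4 * √((2 : ℝ) ^ (g + 2))) := by
          rw [Real.sqrt_mul (by positivity) (K : ℝ)]
          have : √((2 * (g : ℝ) + 3) * 4 * m) ≠ 0 := by positivity
          field_simp

end Pool.Agent.Work.MP_bbb683_h51
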