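import Mathlib
import Pool.Agent.Work.MP_bbb683_h51.Blk

/-!
# Gluing the blocks
-/

set_option autoImplicit false

namespace Pool.Agent.Work.MP_bbb683_h51

open Finset

/-- every difference `a - b < a ^ η` of the set has at most `g` representations -/
def Good (g : ℕ) (η : ℝ) (A : Set ℕ) : Prop :=
  ∀ a ∈ A, ∀ b ∈ A, b < a → (a : ℝ) - b < (a : ℝ) ^ η →
    ∀ T : Finset ℕ, (∀ t ∈ T, t ∈ A ∧ t + (a - b) ∈ A) → T.card ≤ g

theorem good_union {g : ℕ} {η : ℝ} (hη : 0 ≤ η) {A B : Finset ℕ} {R D M : ℕ}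
    (hA : ∀ a ∈ A, a ≤ R) (hRD : R < D) (hD : 1 ≤ D) (hM : (M : ℝ) ^ η ≤ D)
    (hB : ∀ b ∈ B, 2 * D ≤ b ∧ b ≤ M)
    (hrep : ∀ d, 0 < d → d < D → (B.filter (fun b => b + d ∈ B)).card ≤ g)
    (hsep : ∀ b ∈ B, ∀ b' ∈ B, b < b' → R < b' - b)
    (hgood : Good g η (A : Set ℕ)) : Good g η ((A ∪ B : Finset ℕ) : Set ℕ) := by
  intro a ha b hb hba hab T hT
  simp only [mem_coe, mem_union] at ha hb hT
  rcases ha with ha | ha
  · have haR := hA a ha
    have hbA : b ∈ A := by
      rcases hb with hb | hb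
      · exact hb
      · have := hB b hb
        omega
    refine hgood a ha b hbA hba hab T ?_
    intro t ht
    obtain ⟨h1, h2⟩ := hT t ht
    have htA : t ∈ A := by
      rcases h1 with h1 | h1
      · exact h1
      · exfalso
        have := hB t h1
        rcases h2 with h2 | h2
        · have := hA _ h2
          omega
        · have := hsep t h1 _ h2 (by omega)
          omega
    refine ⟨htA, ?_⟩
    rcases h2 with h2 | h2
    · exact h2
    · exfalso
      have := hB _ h2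
      have := hA t htA
      omega
  · have haB := hB a ha
    have h1 : (a : ℝ) - b < D := by
      refine hab.trans_le (le_trans ?_ hM)
      exact Real.rpow_le_rpow (by positivity) (by exact_mod_cast haB.2) hη
    have h2 : a < b + D := by
      have : (a : ℝ) < b + D := by linarith
      exact_mod_cast this
    have hbB : b ∈ B := by
      rcases hb with hb | hb
      · have := hA b hb
        omega
      · exact hb
    have hR := hsep b hbB a ha hba
    refine le_trans (card_le_card ?_) (hrep (a - b) (by omega) (by omega))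
    intro t ht
    obtain ⟨h3, h4⟩ := hT t ht
    have h5 : t + (a - b) ∈ B := by
      rcases h4 with h4 | h4
      · have := hA _ h4
        omega
      · exact h4
    have h6 := hB _ h5
    have h7 : t ∈ B := by
      rcases h3 with h3 | h3
      · have := hA _ h3
        omega
      · exact h3
    exact mem_filter.2 ⟨h7, h5⟩

/-- the elements of `B` having no other element of `B` within distance `R` -/
def sep (B : Finset ℕ) (R : ℕ) : Finset ℕ :=
  B.filter (fun b => ∀ b' ∈ B, (b < b' → R < b' - b) ∧ (b' < b → R < b - b'))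

theorem removed_card {g : ℕ} {B : Finset ℕ} {R D : ℕ} (hRD : R < D)
    (hrep : ∀ d, 0 < d → d < D → (B.filter (fun b => b + d ∈ B)).card ≤ g) :
    (B \ sep B R).card ≤ 2 * g * R := by
  have hsub : B \ sep B R ⊆ (Icc 1 R).biUnion (fun d => B.filter (fun b => b + d ∈ B) ∪
      (B.filter (fun b => b + d ∈ B)).image (fun b => b + d)) := by
    intro b hb
    obtain ⟨h1, h2⟩ := mem_sdiff.1 hb
    have h3 : ∃ b' ∈ B, (b < b' ∧ b' - b ≤ R) ∨ (b' < b ∧ b - b' ≤ R) := by
      by_contra hcon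
      push Not at hcon
      refine h2 (mem_filter.2 ⟨h1, fun b' hb' => ⟨fun h => ?_, fun h => ?_⟩⟩)
      · exact (hcon b' hb').1 h
      · exact (hcon b' hb').2 h
    obtain ⟨b', hb', h | h⟩ := h3
    · refine mem_biUnion.2 ⟨b' - b, mem_Icc.2 ⟨by omega, h.2⟩, mem_union_left _ ?_⟩
      refine mem_filter.2 ⟨h1, ?_⟩
      rw [show b + (b' - b) = b' by omega]; exact hb'
    · refine mem_biUnion.2 ⟨b - b', mem_Icc.2 ⟨by omega, h.2⟩, mem_union_right _ ?_⟩
      refine mem_image.2 ⟨b', mem_filter.2 ⟨hb', ?_⟩, by omega⟩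
      rw [show b' + (b - b') = b by omega]; exact h1
  refine (card_le_card hsub).trans (card_biUnion_le.trans ?_)
  calc ∑ d ∈ Icc 1 R, (B.filter (fun b => b + d ∈ B) ∪
      (B.filter (fun b => b + d ∈ B)).image (fun b => b + d)).card
      ≤ ∑ d ∈ Icc 1 R, 2 * g := by
        refine sum_le_sum fun d hd => ?_
        rw [mem_Icc] at hd
        have h1 := hrep d (by omega) (by omega)
        refine (card_union_le _ _).trans ?_
        have h2 : ((B.filter (fun b => b + d ∈ B)).image (fun b => b + d)).card ≤ _ :=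
          card_image_le
        omega
    _ = 2 * g * R := by
        rw [sum_const, Nat.card_Icc, smul_eq_mul]
        simp [mul_comm]

/-- states of the construction -/
def St (g : ℕ) (η c : ℝ) (s : Finset ℕ × ℕ) : Prop :=
  (∀ a ∈ s.1, 0 < a ∧ a ≤ s.2) ∧ Good g η (s.1 : Set ℕ) ∧ 1 ≤ s.2

/-- one step of the construction -/
def Nx (c : ℝ) (s s' : Finset ℕ × ℕ) : Prop :=
  s.1 ⊆ s'.1 ∧ (∀ a ∈ s'.1, a ≤ s.2 → a ∈ s.1) ∧ (∃ a ∈ s'.1, s.2 < a) ∧ s.2 < s'.2 ∧
    c * √(Real.log s'.2) ≤ ∑ b ∈ s'.1, 1 / √(b : ℝ)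

theorem step {g : ℕ} (hg : 1 ≤ g) {η : ℝ} (hη0 : 0 ≤ η) {c : ℝ} (hc : 0 < c)
    (H : ∀ N : ℕ, ∃ (D M : ℕ) (B : Finset ℕ), N ≤ D ∧ 1 ≤ D ∧ D ≤ M ∧
      (M : ℝ) ^ η ≤ D ∧ (∀ b ∈ B, 2 * D ≤ b ∧ b ≤ M) ∧
      (∀ d, 0 < d → d < D → (B.filter (fun b => b + d ∈ B)).card ≤ g) ∧
      c * √(Real.log M) ≤ ∑ b ∈ B, 1 / √(b : ℝ))
    (s : Finset ℕ × ℕ) (hs : St g η c s) : ∃ s', St g η c s' ∧ Nx (c / 2) s s' := by
  obtain ⟨A, R⟩ := s
  obtain ⟨hA, hgood, hR⟩ := hs
  simp only at hA hgood hR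
  obtain ⟨N₀, hN₀⟩ := exists_nat_gt (Real.exp ((2 / c) ^ 2))
  obtain ⟨D, M, B, h1, h2, h3, h4, h5, h6, h7⟩ := H (N₀ + R + (2 * g * R) ^ 2 + 1)
  have hRD : R < D := by omega
  have hD0 : (0 : ℝ) < D := by exact_mod_cast h2
  have hM0 : (0 : ℝ) < M := by exact_mod_cast (by omega : 0 < M)
  set B' := sep B R with hB'
  have hsub : B' ⊆ B := filter_subset _ _
  have hbig : 2 ≤ c * √(Real.log M) := by
    have e1 : Real.exp ((2 / c) ^ 2) ≤ M := by
      have : (N₀ : ℝ) ≤ M := by exact_mod_cast (by omega : N₀ ≤ M)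
      linarith
    have e2 : (2 / c) ^ 2 ≤ Real.log M := by
      rw [← Real.log_exp ((2 / c) ^ 2)]
      exact Real.log_le_log (Real.exp_pos _) e1
    have e3 : 2 / c ≤ √(Real.log M) := by
      rw [← Real.sqrt_sq (by positivity : 0 ≤ 2 / c)]
      exact Real.sqrt_le_sqrt e2
    rw [div_le_iff₀ hc] at e3
    linarith
  have hrem : ∑ b ∈ B \ B', 1 / √(b : ℝ) ≤ 1 := by
    have e1 : ∀ b ∈ B \ B', 1 / √(b : ℝ) ≤ 1 / √(D : ℝ) := by
      intro b hb
      have hb1 := h5 b (mem_sdiff.1 hb).1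
      refine one_div_le_one_div_of_le (Real.sqrt_pos.2 hD0) (Real.sqrt_le_sqrt ?_)
      exact_mod_cast (by omega : D ≤ b)
    have e2 : ((B \ B').card : ℝ) ≤ √(D : ℝ) := by
      have f1 : (B \ B').card ≤ 2 * g * R := removed_card hRD h6
      have f2 : (((B \ B').card : ℕ) : ℝ) ≤ ((2 * g * R : ℕ) : ℝ) := by exact_mod_cast f1
      refine f2.trans ?_
      rw [← Real.sqrt_sq (by positivity : (0 : ℝ) ≤ ((2 * g * R : ℕ) : ℝ))]
      refine Real.sqrt_le_sqrt ?_
      exact_mod_cast (by omega : (2 * g * R) ^ 2 ≤ D)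
    calc ∑ b ∈ B \ B', 1 / √(b : ℝ) ≤ ∑ b ∈ B \ B', 1 / √(D : ℝ) := sum_le_sum e1
      _ = (B \ B').card * (1 / √(D : ℝ)) := by rw [sum_const, nsmul_eq_mul]
      _ ≤ √(D : ℝ) * (1 / √(D : ℝ)) := mul_le_mul_of_nonneg_right e2 (by positivity)
      _ = 1 := by
        rw [mul_one_div, div_self (Real.sqrt_pos.2 hD0).ne']
  have hsum : c / 2 * √(Real.log M) ≤ ∑ b ∈ B', 1 / √(b : ℝ) := by
    have e1 := sum_sdiff (f := fun b : ℕ => 1 / √(b : ℝ)) hsub
    linarith
  have hne : B'.Nonempty := by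
    by_contra hB
    rw [not_nonempty_iff_eq_empty] at hB
    rw [hB, sum_empty] at hsum
    linarith
  refine ⟨(A ∪ B', M), ⟨?_, ?_, by simp only; omega⟩, subset_union_left, ?_, ?_,
    by simp only; omega, ?_⟩
  · intro a ha
    simp only [mem_union] at ha ⊢
    rcases ha with ha | ha
    · have := hA a ha
      omega
    · have := h5 a (hsub ha)
      omega
  · refine good_union hη0 (fun a ha => (hA a ha).2) hRD h2 h4
      (fun b hb => h5 b (hsub hb)) ?_ ?_ hgood
    · intro d hd0 hd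
      refine le_trans (card_le_card ?_) (h6 d hd0 hd)
      intro b hb
      obtain ⟨f1, f2⟩ := mem_filter.1 hb
      exact mem_filter.2 ⟨hsub f1, hsub f2⟩
    · intro b hb b' hb' hlt
      exact ((mem_filter.1 hb).2 b' (hsub hb')).1 hlt
  · intro a ha haR
    simp only [mem_union] at ha haR ⊢
    rcases ha with ha | ha
    · exact ha
    · have := h5 a (hsub ha)
      omega
  · obtain ⟨b, hb⟩ := hne
    refine ⟨b, mem_union_right _ hb, ?_⟩
    have := h5 b (hsub hb)
    simp only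
    omega
  · refine hsum.trans ?_
    exact sum_le_sum_of_subset_of_nonneg subset_union_right (fun b _ _ => by positivity)

end Pool.Agent.Work.MP_bbb683_h51
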