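import Mathlib
import Pool.Agent.Work.MP_bbb683_h51.Glue

/-!
# The infinite sequence
-/

set_option autoImplicit false

namespace Pool.Agent.Work.MP_bbb683_h51

open Finset

theorem chain {g : ℕ} (hg : 1 ≤ g) {η : ℝ} (hη0 : 0 ≤ η)
    (hη : η < (2 * g + 1) / (2 * g + 2)) :
    ∃ c : ℝ, 0 < c ∧ ∃ s : ℕ → Finset ℕ × ℕ, (∀ n, St g η c (s n)) ∧ ∀ n, Nx c (s n) (s (n + 1)) := by
  obtain ⟨c, hc, H⟩ := block_final g hg η hη
  choose f hf1 hf2 using step hg hη0 hc H
  have h0 : St g η c (∅, 1) := by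
    refine ⟨by simp, ?_, le_rfl⟩
    intro a ha
    simp at ha
  set F : {s // St g η c s} → {s // St g η c s} := fun s => ⟨f s.1 s.2, hf1 s.1 s.2⟩ with hF
  refine ⟨c / 2, by positivity, fun n => (F^[n] ⟨(∅, 1), h0⟩).1, ?_, ?_⟩
  · intro n
    have h := (F^[n] ⟨(∅, 1), h0⟩).2
    exact h
  · intro n
    simp only [Function.iterate_succ', Function.comp]
    exact hf2 _ (F^[n] ⟨(∅, 1), h0⟩).2

/-- The union of a chain. -/
theorem set_exists {g : ℕ} (hg : 1 ≤ g) {η : ℝ} (hη0 : 0 ≤ η)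
    (hη : η < (2 * g + 1) / (2 * g + 2)) :
    ∃ A : Set ℕ, A.Infinite ∧ 0 ∉ A ∧ Good g η A ∧ ∃ c : ℝ, 0 < c ∧ ∀ n : ℕ, ∃ (R : ℕ)
      (T : Finset ℕ), (∀ a, a ∈ T ↔ a ∈ A ∧ a ≤ R) ∧ n ≤ T.card ∧
        c * √(Real.log R) ≤ ∑ b ∈ T, 1 / √(b : ℝ) := by
  obtain ⟨c, hc, s, hs, hn⟩ := chain hg hη0 hη
  have hR : ∀ n, n ≤ (s n).2 := by
    intro n
    induction n with
    | zero => omega
    | succ n ih => have := (hn n).2.2.2.1; omega
  have hRm : ∀ n m, n ≤ m → (s n).2 ≤ (s m).2 := by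
    intro n m hnm
    induction m, hnm using Nat.le_induction with
    | base => exact le_rfl
    | succ m _ ih => have := (hn m).2.2.2.1; omega
  have hmono : ∀ n m, n ≤ m → (s n).1 ⊆ (s m).1 := by
    intro n m hnm
    induction m, hnm using Nat.le_induction with
    | base => exact subset_rfl
    | succ m _ ih => exact ih.trans (hn m).1
  have hinit : ∀ n m, n ≤ m → ∀ a ∈ (s m).1, a ≤ (s n).2 → a ∈ (s n).1 := by
    intro n m hnm
    induction m, hnm using Nat.le_induction with
    | base => intro a ha _; exact ha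
    | succ m h ih =>
      intro a ha haR
      exact ih a ((hn m).2.1 a ha (haR.trans (hRm n m h))) haR
  set A : Set ℕ := {a | ∃ n, a ∈ (s n).1} with hA
  have hmem : ∀ n a, a ∈ (s n).1 ↔ a ∈ A ∧ a ≤ (s n).2 := by
    intro n a
    constructor
    · intro h
      exact ⟨⟨n, h⟩, ((hs n).1 a h).2⟩
    · rintro ⟨⟨m, hm⟩, h⟩
      rcases le_total n m with hnm | hnm
      · exact hinit n m hnm a hm h
      · exact hmono m n hnm hm
  refine ⟨A, ?_, ?_, ?_, c, hc, ?_⟩
  · refine Set.infinite_of_forall_exists_gt fun N => ?_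
    obtain ⟨a, ha, h⟩ := (hn N).2.2.1
    exact ⟨a, ⟨N + 1, ha⟩, lt_of_le_of_lt (hR N) h⟩
  · rintro ⟨n, h⟩
    have := ((hs n).1 0 h).1
    omega
  · intro a ha b hb hba hab T hT
    set n := a + T.sup id + (a - b) with hndef
    have hT' : ∀ t ∈ T, t ≤ T.sup id := fun t ht => le_sup (f := id) ht
    have hRn := hR n
    refine (hs n).2.1 a ?_ b ?_ hba hab T ?_
    · exact mem_coe.2 ((hmem n a).2 ⟨ha, by omega⟩)
    · exact mem_coe.2 ((hmem n b).2 ⟨hb, by omega⟩)
    · intro t ht
      obtain ⟨h1, h2⟩ := hT t ht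
      have := hT' t ht
      exact ⟨mem_coe.2 ((hmem n t).2 ⟨h1, by omega⟩),
        mem_coe.2 ((hmem n _).2 ⟨h2, by omega⟩)⟩
  · intro n
    refine ⟨(s (n + 1)).2, (s (n + 1)).1, hmem (n + 1), ?_, (hn n).2.2.2.2⟩
    have hcard : ∀ n, n ≤ (s n).1.card := by
      intro n
      induction n with
      | zero => omega
      | succ n ih =>
        obtain ⟨a, ha, h⟩ := (hn n).2.2.1
        have hss : (s n).1 ⊂ (s (n + 1)).1 := by
          refine ⟨(hn n).1, fun h' => ?_⟩
          have := ((hs n).1 a (h' ha)).2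
          omega
        have := card_lt_card hss
        omega
    have := hcard (n + 1)
    omega

theorem seq_exists {g : ℕ} (hg : 1 ≤ g) {η : ℝ} (hη : η < (2 * g + 1) / (2 * g + 2)) :
    ∃ a : ℕ → ℕ, StrictMono a ∧ 0 < a 0 ∧
      (∀ i j, i < j → (a j : ℝ) - a i < (a j : ℝ) ^ η →
        {p : ℕ × ℕ | a p.2 = a p.1 + (a j - a i)}.encard ≤ g) ∧
      ∃ c : ℝ, 0 < c ∧ ∀ N : ℕ, ∃ x ≥ N,
        c * √(Real.log x) ≤ ∑ i ∈ range x, 1 / √(a i : ℝ) := by
  classical
  obtain ⟨A, hinf, h0, hgood, c, hc, hT⟩ := set_exists hg (le_max_right η 0)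
    (max_lt hη (by positivity))
  have hinf' : (Set.ofPred (fun n => n ∈ A)).Infinite := hinf
  set a : ℕ → ℕ := Nat.nth (fun n => n ∈ A) with ha
  have hmono : StrictMono a := Nat.nth_strictMono hinf'
  have hmem : ∀ i, a i ∈ A := fun i => Nat.nth_mem_of_infinite hinf' i
  have hpos : ∀ i, 0 < a i := by
    intro i
    rcases Nat.eq_zero_or_pos (a i) with h | h
    · exact absurd (h ▸ hmem i) h0
    · exact h
  refine ⟨a, hmono, hpos 0, ?_, c, hc, ?_⟩
  · intro i j hij hlt
    by_contra hcon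
    push Not at hcon
    obtain ⟨T', hT', hcard⟩ := Set.exists_subset_encard_eq (k := ((g + 1 : ℕ) : ℕ∞))
      (s := {p : ℕ × ℕ | a p.2 = a p.1 + (a j - a i)})
      (by
        have := Order.add_one_le_of_lt hcon
        exact_mod_cast this)
    have hfin : T'.Finite := Set.finite_of_encard_eq_coe hcard
    set T : Finset ℕ := (hfin.toFinset).image (fun p => a p.1) with hTdef
    have hlt' : (a j : ℝ) - a i < (a j : ℝ) ^ (max η 0) := by
      refine hlt.trans_le (Real.rpow_le_rpow_of_exponent_le ?_ (le_max_left _ _))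
      exact_mod_cast hpos j
    have h1 := hgood (a j) (hmem j) (a i) (hmem i) (hmono hij) hlt' T (by
      intro t ht
      obtain ⟨p, hp, rfl⟩ := mem_image.1 ht
      have h2 : a p.2 = a p.1 + (a j - a i) := hT' (hfin.mem_toFinset.1 hp)
      exact ⟨hmem _, h2 ▸ hmem _⟩)
    have h2 : T.card = g + 1 := by
      rw [hTdef, card_image_of_injOn]
      · have := hfin.encard_eq_coe_toFinset_card
        rw [hcard] at this
        exact_mod_cast this.symm
      · intro p hp p' hp' hpp
        have e1 : a p.2 = a p.1 + (a j - a i) := hT' (hfin.mem_toFinset.1 (mem_coe.1 hp))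
        have e2 : a p'.2 = a p'.1 + (a j - a i) := hT' (hfin.mem_toFinset.1 (mem_coe.1 hp'))
        have hpp' : a p.1 = a p'.1 := hpp
        ext
        · exact hmono.injective hpp'
        · refine hmono.injective ?_
          rw [e1, e2, hpp']
    omega
  · intro N
    obtain ⟨R, T, hT1, hT2, hT3⟩ := hT (N + 1)
    have himg : T = (range (Nat.count (fun n => n ∈ A) (R + 1))).image a := by
      ext b
      rw [hT1]
      constructor
      · rintro ⟨hb, hbR⟩
        refine mem_image.2 ⟨Nat.count (fun n => n ∈ A) b, mem_range.2 ?_, Nat.nth_count hb⟩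
        exact Nat.count_strict_mono hb (by omega)
      · intro hb
        obtain ⟨i, hi, rfl⟩ := mem_image.1 hb
        have := (Nat.lt_nth_iff_count_lt hinf').1 (mem_range.1 hi)
        exact ⟨hmem i, Nat.lt_succ_iff.1 this⟩
    set x := Nat.count (fun n => n ∈ A) (R + 1) with hx
    have hcard : T.card = x := by
      rw [himg, card_image_of_injective _ hmono.injective, card_range]
    have hsub : T ⊆ Icc 1 R := by
      intro b hb
      obtain ⟨h1, h2⟩ := (hT1 b).1 hb
      refine mem_Icc.2 ⟨?_, h2⟩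
      rcases Nat.eq_zero_or_pos b with h | h
      · exact absurd (h ▸ h1) h0
      · exact h
    have hxR : x ≤ R := by
      have := card_le_card hsub
      rw [hcard, Nat.card_Icc] at this
      omega
    refine ⟨x, by omega, ?_⟩
    have hx1 : 1 ≤ x := by omega
    calc c * √(Real.log x) ≤ c * √(Real.log R) := by
          refine mul_le_mul_of_nonneg_left (Real.sqrt_le_sqrt (Real.log_le_log ?_ ?_)) hc.le
          · exact_mod_cast hx1
          · exact_mod_cast hxR
      _ ≤ ∑ b ∈ T, 1 / √(b : ℝ) := hT3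
      _ = ∑ i ∈ range x, 1 / √(a i : ℝ) := by
          rw [himg, sum_image (fun i _ j _ h => hmono.injective h)]

end Pool.Agent.Work.MP_bbb683_h51
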